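import Pool.Agent.Work.MP_b29d7f_ns.Defs

/-! Basic facts on `Data`. -/

set_option autoImplicit false

open Finset

namespace Pool.NS

namespace Data

variable {R : Type} [CommRing R] {P : Data R} {C₁ : ℝ}

lemma em_sub (x y : R) (v : P.Ω) : P.em (x - y) v = P.em x v - P.em y v := by
  rw [map_sub]; rfl

lemma em_neg (x : R) (v : P.Ω) : P.em (-x) v = - P.em x v := by
  rw [map_neg]; rfl

lemma em_zero (v : P.Ω) : P.em 0 v = 0 := by
  rw [map_zero]; rfl

lemma Geo.ln_zero (h : P.Geo C₁) : P.ln 0 = 0 := by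
  simp [ln, em_zero, h.lev_zero]

lemma Geo.ln_neg (h : P.Geo C₁) (x : R) : P.ln (-x) = P.ln x := by
  simp [ln, em_neg, h.lev_neg]

lemma Geo.cap_neg (h : P.Geo C₁) (t : P.T) (m : ℤ) (x : R) : P.cap t m (-x) = P.cap t m x := by
  by_cases hx : x = 0
  · simp [hx]
  · unfold cap
    rw [if_neg hx, if_neg (neg_ne_zero.2 hx), h.lev_neg]

lemma cap_zero (t : P.T) (m : ℤ) : P.cap t m 0 = m := by simp [cap]

lemma le_cap (t : P.T) (m : ℤ) (x : R) : m ≤ P.cap t m x := by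
  unfold cap; split_ifs
  · exact le_rfl
  · exact le_max_right _ _

lemma lev_le_cap {t : P.T} {m : ℤ} {x : R} (hx : x ≠ 0) : P.lev t x ≤ P.cap t m x := by
  unfold cap; rw [if_neg hx]; exact le_max_left _ _

lemma Geo.kap_neg (h : P.Geo C₁) (ρ : P.Ω → ℝ) (m : P.T → ℤ) (x : R) :
    P.kap ρ m (-x) = P.kap ρ m x := by
  simp [kap, em_neg, h.cap_neg]

lemma kap_zero {ρ : P.Ω → ℝ} (hρ : ∀ v, 0 < ρ v) (m : P.T → ℤ) : P.kap ρ m 0 = P.deg ρ m := by
  unfold kap deg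
  congr 1
  · apply Finset.sum_congr rfl
    intro v _
    rw [em_zero, norm_zero]
    have : (0 : ℝ) ^ 2 + ρ v ^ 2 = ρ v ^ 2 := by ring
    rw [this, Real.log_pow]
    push_cast
    ring
  · apply Finset.sum_congr rfl
    intro t _
    rw [cap_zero]

lemma half_log_ge {r ρ : ℝ} (hρ : 0 < ρ) : Real.log ρ ≤ Real.log (r ^ 2 + ρ ^ 2) / 2 := by
  have h : Real.log (ρ ^ 2) ≤ Real.log (r ^ 2 + ρ ^ 2) :=
    Real.log_le_log (by positivity) (by nlinarith [sq_nonneg r])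
  rw [Real.log_pow] at h
  push_cast at h
  linarith

lemma half_log_ge' {r ρ : ℝ} (hr : 0 < r) : Real.log r ≤ Real.log (r ^ 2 + ρ ^ 2) / 2 := by
  have h : Real.log (r ^ 2) ≤ Real.log (r ^ 2 + ρ ^ 2) :=
    Real.log_le_log (by positivity) (by nlinarith [sq_nonneg ρ])
  rw [Real.log_pow] at h
  push_cast at h
  linarith

lemma Geo.deg_le_kap (h : P.Geo C₁) {ρ : P.Ω → ℝ} (hρ : ∀ v, 0 < ρ v) (m : P.T → ℤ) (x : R) :
    P.deg ρ m ≤ P.kap ρ m x := by
  unfold kap deg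
  apply add_le_add
  · apply Finset.sum_le_sum
    intro v _
    exact mul_le_mul_of_nonneg_left (half_log_ge (hρ v)) (Nat.cast_nonneg _)
  · apply Finset.sum_le_sum
    intro t _
    exact mul_le_mul_of_nonneg_left (by exact_mod_cast P.le_cap t (m t) x) (h.lq_pos t).le

lemma Geo.ln_le_kap (h : P.Geo C₁) (ρ : P.Ω → ℝ) (m : P.T → ℤ) {x : R}
    (hx : x ≠ 0) : P.ln x ≤ P.kap ρ m x := by
  unfold kap ln
  apply add_le_add
  · apply Finset.sum_le_sum
    intro v _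
    exact mul_le_mul_of_nonneg_left (half_log_ge' (norm_pos_iff.2 (h.em_ne x hx v)))
      (Nat.cast_nonneg _)
  · apply Finset.sum_le_sum
    intro t _
    exact mul_le_mul_of_nonneg_left (by exact_mod_cast P.lev_le_cap hx) (h.lq_pos t).le

lemma gap_zero (ρ : P.Ω → ℝ) (m : P.T → ℤ) : P.gap ρ m 0 = 0 := by simp [gap]

lemma gap_of_ne (ρ : P.Ω → ℝ) (m : P.T → ℤ) {x : R} (hx : x ≠ 0) :
    P.gap ρ m x = P.kap ρ m x - P.ln x := by simp [gap, hx]

lemma Geo.gap_nonneg (h : P.Geo C₁) (ρ : P.Ω → ℝ) (m : P.T → ℤ) (x : R) : 0 ≤ P.gap ρ m x := by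
  unfold gap
  split_ifs with hx
  · exact le_rfl
  · linarith [h.ln_le_kap ρ m hx]

lemma Geo.gap_neg (h : P.Geo C₁) (ρ : P.Ω → ℝ) (m : P.T → ℤ) (x : R) :
    P.gap ρ m (-x) = P.gap ρ m x := by
  by_cases hx : x = 0
  · simp [hx]
  · rw [gap_of_ne ρ m hx, gap_of_ne ρ m (neg_ne_zero.2 hx), h.ln_neg, h.kap_neg]

lemma Geo.Gp_nonneg (h : P.Geo C₁) (ρ : P.Ω → ℝ) (m : P.T → ℤ) (B : Finset R) :
    0 ≤ P.Gp ρ m B :=
  Finset.sum_nonneg fun _ _ => Finset.sum_nonneg fun _ _ => h.gap_nonneg ρ m _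

lemma Geo.gap_symm (h : P.Geo C₁) (ρ : P.Ω → ℝ) (m : P.T → ℤ) (x y : R) :
    P.gap ρ m (x - y) = P.gap ρ m (y - x) := by
  rw [← neg_sub, h.gap_neg]

lemma Geo.kap_symm (h : P.Geo C₁) (ρ : P.Ω → ℝ) (m : P.T → ℤ) (x y : R) :
    P.kap ρ m (x - y) = P.kap ρ m (y - x) := by
  rw [← neg_sub, h.kap_neg]

lemma Geo.ln_symm (h : P.Geo C₁) (x y : R) : P.ln (x - y) = P.ln (y - x) := by
  rw [← neg_sub, h.ln_neg]

/-- potential of an element of `A` -/
lemma Geo.sum_ln (h : P.Geo C₁) {ρ : P.Ω → ℝ} (hρ : ∀ v, 0 < ρ v) (m : P.T → ℤ) {A : Finset R}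
    {x : R} (hx : x ∈ A) :
    ∑ b ∈ A, P.ln (x - b) = ∑ b ∈ A, P.kap ρ m (x - b) - P.deg ρ m - ∑ b ∈ A, P.gap ρ m (x - b) := by
  classical
  rw [← Finset.add_sum_erase _ _ hx, ← Finset.add_sum_erase _ (fun b => P.kap ρ m (x - b)) hx,
    ← Finset.add_sum_erase _ (fun b => P.gap ρ m (x - b)) hx, sub_self, h.ln_zero, kap_zero hρ,
    gap_zero]
  have : ∑ b ∈ A.erase x, P.ln (x - b)
      = ∑ b ∈ A.erase x, (P.kap ρ m (x - b) - P.gap ρ m (x - b)) := by
    apply Finset.sum_congr rfl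
    intro b hb
    rw [gap_of_ne]
    · ring
    · exact sub_ne_zero.2 (Finset.ne_of_mem_erase hb).symm
  rw [this, Finset.sum_sub_distrib]
  ring

/-- potential of an element outside `A` -/
lemma Geo.sum_ln_le (h : P.Geo C₁) (ρ : P.Ω → ℝ) (m : P.T → ℤ) {A : Finset R}
    {y : R} (hy : y ∉ A) : ∑ b ∈ A, P.ln (y - b) ≤ ∑ b ∈ A, P.kap ρ m (y - b) := by
  apply Finset.sum_le_sum
  intro b hb
  exact h.ln_le_kap ρ m (sub_ne_zero.2 fun hyb => hy (hyb ▸ hb))

/-- energy in terms of `kap` and `gap` -/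
lemma Geo.En_eq (h : P.Geo C₁) {ρ : P.Ω → ℝ} (hρ : ∀ v, 0 < ρ v) (m : P.T → ℤ) (B : Finset R) :
    P.En B = ∑ x ∈ B, ∑ y ∈ B, P.kap ρ m (x - y) - B.card * P.deg ρ m - P.Gp ρ m B := by
  unfold En Gp
  rw [Finset.sum_congr rfl fun x hx => h.sum_ln hρ m hx, Finset.sum_sub_distrib,
    Finset.sum_sub_distrib, Finset.sum_const, nsmul_eq_mul]

lemma NearT.refl (t : P.T) (l : ℤ) (x : R) : P.NearT t l x x := Or.inl rfl

lemma Geo.nearT_symm (h : P.Geo C₁) {t : P.T} {l : ℤ} {x y : R} (hxy : P.NearT t l x y) :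
    P.NearT t l y x := by
  rcases hxy with h1 | h1
  · exact Or.inl h1.symm
  · right; rw [← neg_sub, h.lev_neg]; exact h1

lemma Geo.nearT_trans (h : P.Geo C₁) {t : P.T} {l : ℤ} {x y z : R} (hxy : P.NearT t l x y)
    (hyz : P.NearT t l y z) : P.NearT t l x z := by
  by_cases h1 : x = y
  · rw [h1]; exact hyz
  by_cases h2 : y = z
  · rw [← h2]; exact hxy
  by_cases h3 : x = z
  · exact Or.inl h3
  right
  have h4 : P.lev t (x - y) ≤ l := hxy.resolve_left h1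
  have h5 : P.lev t (y - z) ≤ l := hyz.resolve_left h2
  have h6 := h.lev_add t (x - y) (y - z) (sub_ne_zero.2 h1) (sub_ne_zero.2 h2)
    (by rw [sub_add_sub_cancel]; exact sub_ne_zero.2 h3)
  rw [sub_add_sub_cancel] at h6
  exact le_trans h6 (max_le h4 h5)

lemma NearT.mono {t : P.T} {l l' : ℤ} (hl : l ≤ l') {x y : R} (hxy : P.NearT t l x y) :
    P.NearT t l' x y := hxy.imp_right fun h => le_trans h hl

lemma nearT_iff_cap {t : P.T} {m l : ℤ} (hm : m ≤ l) {x y : R} :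
    P.NearT t l x y ↔ P.cap t m (x - y) ≤ l := by
  unfold NearT cap
  by_cases h : x = y
  · simp [h, hm]
  · simp [h, sub_ne_zero.2 h, hm]

lemma Geo.nearT_sub (h : P.Geo C₁) {t : P.T} {l : ℤ} {x y : R} (hx : P.NearT t l x 0)
    (hy : P.NearT t l y 0) : P.NearT t l (x - y) 0 := by
  have h1 : P.NearT t l x y := h.nearT_trans hx (h.nearT_symm hy)
  rcases h1 with h1 | h1
  · left; rw [h1, sub_self]
  · right; rw [sub_zero]; exact h1

/-- `cap` does not change if a small element is added -/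
lemma Geo.cap_add (h : P.Geo C₁) {t : P.T} {m : ℤ} {x w : R} (hw : P.NearT t m w 0) :
    P.cap t m (x + w) = P.cap t m x := by
  have key : ∀ x w : R, P.NearT t m w 0 → P.cap t m (x + w) ≤ P.cap t m x := by
    intro x w hw
    by_cases hw0 : w = 0
    · rw [hw0, add_zero]
    have hw' : P.lev t w ≤ m := by
      have := hw.resolve_left hw0; rwa [sub_zero] at this
    by_cases hx : x = 0
    · rw [hx, zero_add, cap_zero]
      unfold cap; rw [if_neg hw0]; exact max_le hw' le_rfl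
    by_cases hxw : x + w = 0
    · rw [hxw, cap_zero]; exact P.le_cap t m x
    · unfold cap
      rw [if_neg hx, if_neg hxw]
      have := h.lev_add t x w hx hw0 hxw
      refine max_le (le_trans this (max_le (le_max_left _ _) (le_trans hw' (le_max_right _ _))))
        (le_max_right _ _)
  apply le_antisymm (key x w hw)
  have hw' : P.NearT t m (-w) 0 := by
    rcases hw with h1 | h1
    · left; rw [h1, neg_zero]
    · right; rw [sub_zero] at h1 ⊢; rw [h.lev_neg]; exact h1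
  have := key (x + w) (-w) hw'
  rwa [add_neg_cancel_right] at this

lemma Geo.Nt_pos (h : P.Geo C₁) : 0 < P.Nt := by
  obtain ⟨v⟩ := h.ne
  have h1 : (1 : ℝ) ≤ ∑ v, (P.e v : ℝ) := by
    have h2 : (1 : ℝ) ≤ P.e v := by
      rcases h.e_eq v with h3 | h3 <;> rw [h3] <;> norm_num
    exact le_trans h2 (Finset.single_le_sum (f := fun v => (P.e v : ℝ))
      (fun _ _ => Nat.cast_nonneg _) (Finset.mem_univ v))
  have h2 : 0 ≤ ∑ t, P.lq t := Finset.sum_nonneg fun t _ => (h.lq_pos t).le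
  unfold Nt; linarith

lemma fB_sum {A B : Finset R} (hB : B ⊆ A) (hA : A.Nonempty) : ∑ x ∈ A, fB A B x = 0 := by
  classical
  unfold fB
  rw [Finset.sum_sub_distrib, Finset.sum_const, nsmul_eq_mul]
  have h1 : ∑ x ∈ A, (if x ∈ B then (1 : ℝ) else 0) = B.card := by
    rw [Finset.sum_ite_mem, Finset.inter_eq_right.2 hB]; simp
  have h2 : (A.card : ℝ) ≠ 0 := by
    have := Finset.card_pos.2 hA; positivity
  rw [h1]
  field_simp
  ring

end Data

end Pool.NS
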