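import Pool.Agent.Work.MP_b29d7f_ns.Interface

/-! Basic facts on sequences of optimal sets. -/

set_option autoImplicit false

open Finset Filter Topology

namespace Pool.NS

namespace Data

variable {R : Type} [CommRing R] {P : Data R} {C₁ : ℝ}

lemma Geo.e_ge (h : P.Geo C₁) (v : P.Ω) : (1 : ℝ) ≤ P.e v := by
  rcases h.e_eq v with h3 | h3 <;> rw [h3] <;> norm_num

lemma Geo.e_le (h : P.Geo C₁) (v : P.Ω) : (P.e v : ℝ) ≤ 2 := by
  rcases h.e_eq v with h3 | h3 <;> rw [h3] <;> norm_num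

lemma Geo.Mx_mul_le (h : P.Geo C₁) {n : ℕ} (hn : 1 ≤ n) : (P.Mx n : ℝ) * P.Nt ≤ Real.log n := by
  have h1 : 0 ≤ Real.log n / P.Nt :=
    div_nonneg (Real.log_nonneg (by exact_mod_cast hn)) h.Nt_pos.le
  have h2 := Nat.floor_le h1
  rwa [le_div_iff₀ h.Nt_pos] at h2

lemma Geo.lt_Mx_mul (h : P.Geo C₁) (n : ℕ) : Real.log n < ((P.Mx n : ℝ) + 1) * P.Nt := by
  have h2 := Nat.lt_floor_add_one (Real.log n / P.Nt)
  rwa [div_lt_iff₀ h.Nt_pos] at h2

lemma Geo.gap_le_mono (h : P.Geo C₁) {ρ ρ' : P.Ω → ℝ} {m m' : P.T → ℤ} (hρ : ∀ v, 0 < ρ v)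
    (hρ' : ∀ v, ρ v ≤ ρ' v) (hm : ∀ t, m t ≤ m' t) (x : R) : P.gap ρ m x ≤ P.gap ρ' m' x := by
  by_cases hx : x = 0
  · simp [gap, hx]
  rw [gap_of_ne _ _ hx, gap_of_ne _ _ hx]
  apply sub_le_sub_right
  unfold kap
  apply add_le_add
  · apply Finset.sum_le_sum
    intro v _
    apply mul_le_mul_of_nonneg_left _ (Nat.cast_nonneg _)
    apply div_le_div_of_nonneg_right _ (by norm_num)
    have := hρ v
    apply Real.log_le_log (by positivity)
    nlinarith [hρ' v, sq_nonneg ‖P.em x v‖]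
  · apply Finset.sum_le_sum
    intro t _
    apply mul_le_mul_of_nonneg_left _ (h.lq_pos t).le
    unfold cap
    rw [if_neg hx, if_neg hx]
    exact_mod_cast max_le_max le_rfl (hm t)

/-- `Opt` is invariant under translations -/
lemma Opt.translate [DecidableEq R] {A : Finset R} {L : AddSubgroup R} (h : P.Opt C₁ A L) (a : R) :
    P.Opt C₁ (A.image fun x => x - a) L ∧ (A.image fun x => x - a).card = A.card := by
  have hinj : Function.Injective fun x : R => x - a := sub_left_injective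
  have hc : (A.image fun x => x - a).card = A.card := Finset.card_image_of_injective _ hinj
  have hsum : ∀ x : R, ∑ b ∈ A.image (fun x => x - a), P.ln (x - a - b) = ∑ b ∈ A, P.ln (x - b) := by
    intro x
    rw [Finset.sum_image fun _ _ _ _ h => hinj h]
    apply Finset.sum_congr rfl
    intro b _
    congr 1; ring
  have hE : P.En (A.image fun x => x - a) = P.En A := by
    unfold En
    rw [Finset.sum_image fun _ _ _ _ h => hinj h]
    exact Finset.sum_congr rfl fun x _ => hsum x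
  refine ⟨⟨h.ne.image _, ?_, ?_, ?_, ?_, ?_⟩, hc⟩
  · intro B hB
    rw [hE]; exact h.min B (hB.trans hc)
  · intro x hx
    obtain ⟨y, hy, rfl⟩ := Finset.mem_image.1 hx
    rw [hsum, hc]
    exact h.pot y hy
  · intro x hx y hy hxy
    obtain ⟨x', hx', rfl⟩ := Finset.mem_image.1 hx
    obtain ⟨y', hy', rfl⟩ := Finset.mem_image.1 hy
    rw [h.inj x' hx' y' hy' (by simpa using hxy)]
  · intro x
    obtain ⟨b, hb, hxb⟩ := h.sur (x + a)
    refine ⟨b - a, Finset.mem_image_of_mem _ hb, ?_⟩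
    have : x - (b - a) = x + a - b := by ring
    rwa [this]
  · rw [hc]; exact h.big

end Data

namespace Sq

open Data

variable {R : Type} [CommRing R] {P : Data R} (S : Sq P)

lemma geo : P.Geo S.C₁ := S.good.toGeo

lemma n_pos (l : ℕ) : 0 < S.n l := by
  unfold n; exact_mod_cast Finset.card_pos.2 (S.opt l).ne

lemma one_le_card (l : ℕ) : 1 ≤ (S.A l).card := Finset.card_pos.2 (S.opt l).ne

lemma one_le_n (l : ℕ) : 1 ≤ S.n l := by
  unfold n; exact_mod_cast S.one_le_card l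

lemma s_pos (l : ℕ) (v : P.Ω) : 0 < S.s l v := (S.frame l).spos v

lemma X_add (l : ℕ) (x y : R) (v : P.Ω) : S.X l (x + y) v = S.X l x v + S.X l y v := by
  unfold X; rw [map_add, Pi.add_apply, smul_add]

lemma X_sub (l : ℕ) (x y : R) (v : P.Ω) : S.X l (x - y) v = S.X l x v - S.X l y v := by
  unfold X; rw [em_sub, smul_sub]

lemma X_neg (l : ℕ) (x : R) (v : P.Ω) : S.X l (-x) v = -S.X l x v := by
  unfold X; rw [em_neg, smul_neg]

lemma X_zero (l : ℕ) (v : P.Ω) : S.X l 0 v = 0 := by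
  unfold X; rw [em_zero, smul_zero]

lemma norm_X (l : ℕ) (x : R) (v : P.Ω) : ‖S.X l x v‖ = ‖P.em x v‖ / S.s l v := by
  unfold X
  rw [norm_smul, norm_inv, Real.norm_eq_abs, abs_of_pos (S.s_pos l v), div_eq_inv_mul]

lemma norm_em (l : ℕ) (x : R) (v : P.Ω) : ‖P.em x v‖ = S.s l v * ‖S.X l x v‖ := by
  rw [norm_X, mul_div_cancel₀ _ (S.s_pos l v).ne']

lemma norm_em_sub (l : ℕ) (x : R) (v : P.Ω) (ξ : E (P.e v)) :
    ‖P.em x v - S.s l v • ξ‖ = S.s l v * ‖S.X l x v - ξ‖ := by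
  have h : P.em x v - S.s l v • ξ = S.s l v • (S.X l x v - ξ) := by
    unfold X
    rw [smul_sub, smul_smul, mul_inv_cancel₀ (S.s_pos l v).ne', one_smul]
  rw [h, norm_smul, Real.norm_eq_abs, abs_of_pos (S.s_pos l v)]

open scoped Classical in
/-- the number of elements of `A l` in a ball of radius `r` in scaled coordinates -/
lemma cntV_eq (l : ℕ) (v : P.Ω) (ξ : E (P.e v)) (r : ℝ) :
    P.cntV (S.A l) v (S.s l v • ξ) (r * S.s l v)
      = ((S.A l).filter fun x => ‖S.X l x v - ξ‖ ≤ r).card := by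
  unfold cntV
  congr 1
  apply Finset.filter_congr
  intro x _
  rw [norm_em_sub, mul_comm, mul_le_mul_iff_left₀ (S.s_pos l v)]

open scoped Classical in
/-- small balls in scaled coordinates -/
lemma smallX (l M : ℕ) (hM : M ≤ P.Mx (S.A l).card) (v : P.Ω) (ξ : E (P.e v)) :
    (((S.A l).filter fun x => ‖S.X l x v - ξ‖ ≤ Real.exp (-(M : ℝ))).card : ℝ)
      ≤ S.C * Real.exp (-(S.c * M)) * S.n l := by
  rw [← cntV_eq]
  exact (S.frame l).smallV M hM v _

lemma exc_term_nonneg (l : ℕ) (x : R) (v : P.Ω) :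
    0 ≤ (P.e v : ℝ) * Real.posLog (‖P.em x v‖ / S.s l v) :=
  mul_nonneg (Nat.cast_nonneg _) Real.posLog_nonneg

open scoped Classical in
lemma exc_term_nonneg' (l : ℕ) (x : R) (t : P.T) :
    0 ≤ P.lq t * (if x = 0 then 0 else ((max (P.lev t x - S.j l t) 0 : ℤ) : ℝ)) := by
  apply mul_nonneg (S.good.lq_pos t).le
  split_ifs
  · exact le_rfl
  · exact_mod_cast le_max_right _ _

lemma ex_nonneg (l : ℕ) (x : R) : 0 ≤ S.ex l x :=
  add_nonneg (Finset.sum_nonneg fun v _ => S.exc_term_nonneg l x v)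
    (Finset.sum_nonneg fun t _ => S.exc_term_nonneg' l x t)

lemma posLog_le_ex (l : ℕ) (x : R) (v : P.Ω) : Real.posLog ‖S.X l x v‖ ≤ S.ex l x := by
  have h1 : (P.e v : ℝ) * Real.posLog (‖P.em x v‖ / S.s l v)
      ≤ ∑ v, (P.e v : ℝ) * Real.posLog (‖P.em x v‖ / S.s l v) :=
    Finset.single_le_sum (f := fun v => (P.e v : ℝ) * Real.posLog (‖P.em x v‖ / S.s l v))
      (fun v _ => S.exc_term_nonneg l x v) (Finset.mem_univ v)
  have h2 := Finset.sum_nonneg fun t (_ : t ∈ Finset.univ) => S.exc_term_nonneg' l x t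
  have h3 := S.geo.e_ge v
  have h4 : 0 ≤ Real.posLog (‖P.em x v‖ / S.s l v) := Real.posLog_nonneg
  rw [norm_X]
  unfold ex exc
  nlinarith

lemma norm_X_le (l : ℕ) (x : R) (v : P.Ω) : ‖S.X l x v‖ ≤ Real.exp (S.ex l x) := by
  have h := S.posLog_le_ex l x v
  rcases eq_or_lt_of_le (norm_nonneg (S.X l x v)) with h0 | h0
  · rw [← h0]; exact (Real.exp_pos _).le
  · rw [← Real.log_le_iff_le_exp h0]
    exact le_trans (le_max_right 0 _) h

lemma lev_le_ex (l : ℕ) {x : R} (hx : x ≠ 0) (t : P.T) :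
    P.lq t * ((max (P.lev t x - S.j l t) 0 : ℤ) : ℝ) ≤ S.ex l x := by
  classical
  have h1 : P.lq t * (if x = 0 then 0 else ((max (P.lev t x - S.j l t) 0 : ℤ) : ℝ))
      ≤ ∑ t, P.lq t * (if x = 0 then 0 else ((max (P.lev t x - S.j l t) 0 : ℤ) : ℝ)) :=
    Finset.single_le_sum
      (f := fun t => P.lq t * (if x = 0 then 0 else ((max (P.lev t x - S.j l t) 0 : ℤ) : ℝ)))
      (fun t _ => S.exc_term_nonneg' l x t) (Finset.mem_univ t)
  have h2 := Finset.sum_nonneg fun v (_ : v ∈ Finset.univ) => S.exc_term_nonneg l x v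
  rw [if_neg hx] at h1
  unfold ex exc
  linarith

lemma tendsto_Mx : Tendsto (fun l => P.Mx (S.A l).card) atTop atTop := by
  unfold Data.Mx
  apply tendsto_nat_floor_atTop.comp
  apply Tendsto.atTop_div_const S.geo.Nt_pos
  exact Real.tendsto_log_atTop.comp S.card

lemma eventually_Mx (M : ℕ) : ∀ᶠ l in atTop, M ≤ P.Mx (S.A l).card :=
  S.tendsto_Mx.eventually_ge_atTop M

lemma exp_Mx_tendsto : Tendsto (fun l => Real.exp (-(S.c * P.Mx (S.A l).card))) atTop (𝓝 0) := by
  apply Real.tendsto_exp_atBot.comp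
  apply tendsto_neg_atTop_atBot.comp
  apply Tendsto.const_mul_atTop S.hc
  exact tendsto_natCast_atTop_atTop.comp S.tendsto_Mx

lemma tendsto_log_n : Tendsto (fun l => Real.log (S.n l)) atTop atTop :=
  Real.tendsto_log_atTop.comp S.card

end Sq

/-- KAPS -/
theorem stmt_KAPS : Stmt_KAPS := by
  intro R _ P S l M
  have hs := fun v => S.s_pos l v
  have hdeg := (S.frame l).deg_eq
  constructor
  · unfold Sq.n
    rw [← hdeg]
    unfold Data.deg Data.Nt
    rw [mul_add, Finset.mul_sum, Finset.mul_sum, add_sub_add_comm, ← Finset.sum_sub_distrib,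
      ← Finset.sum_sub_distrib]
    congr 1
    · apply Finset.sum_congr rfl
      intro v _
      rw [Real.log_mul (Real.exp_pos _).ne' (hs v).ne', Real.log_exp]
      ring
    · apply Finset.sum_congr rfl
      intro t _
      push_cast
      ring
  · intro x y
    unfold Sq.n
    rw [← hdeg]
    unfold Data.deg Data.kap
    rw [add_add_add_comm, ← Finset.sum_add_distrib, ← Finset.sum_add_distrib]
    congr 1
    · apply Finset.sum_congr rfl
      intro v _
      have h1 : ‖P.em (x - y) v‖ ^ 2 + (Real.exp (-(M : ℝ)) * S.s l v) ^ 2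
          = S.s l v ^ 2 * (‖S.X l x v - S.X l y v‖ ^ 2 + Real.exp (-(M : ℝ)) ^ 2) := by
        rw [S.norm_em l, S.X_sub]; ring
      have h2 : 0 < ‖S.X l x v - S.X l y v‖ ^ 2 + Real.exp (-(M : ℝ)) ^ 2 := by positivity
      have h3 := hs v
      rw [h1, Real.log_mul (by positivity) h2.ne', Real.log_pow]
      push_cast
      ring
    · apply Finset.sum_congr rfl
      intro t _
      push_cast
      ring

end Pool.NS
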