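import Mathlib
import Pool.Agent.Work.MP_b29d7f_nt.Ded.Defs

/-!
# Rings of `S`-integers of number fields: the data used in the analytic part

`R` is a ring (in the application a ring of `S`-integers of a number field), `Ω` the set of its
infinite places, `e v = 1` or `2` the degree of `v`, `em` the embedding of `R` in the product of the
completions, `T` the finite set of finite places of `S`, `lq t` the logarithm of the norm of `t` and
`lev t x = - ord_t x`.
-/

set_option autoImplicit false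

open Finset

namespace Pool.NS

/-- Euclidean space of dimension `k` -/
abbrev E (k : ℕ) : Type := EuclideanSpace ℝ (Fin k)

structure Data (R : Type) [CommRing R] where
  Ω : Type
  [fΩ : Fintype Ω]
  [dΩ : DecidableEq Ω]
  T : Type
  [fT : Fintype T]
  [dT : DecidableEq T]
  e : Ω → ℕ
  lq : T → ℝ
  em : R →+ ((v : Ω) → E (e v))
  lev : T → R → ℤ

attribute [instance] Data.fΩ Data.dΩ Data.fT Data.dT

namespace Data

variable {R : Type} [CommRing R] (P : Data R)

/-- logarithm of the norm `|R / xR|` (and `ln 0 = 0`) -/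
noncomputable def ln (x : R) : ℝ :=
  ∑ v, (P.e v : ℝ) * Real.log ‖P.em x v‖ + ∑ t, P.lq t * (P.lev t x : ℝ)

/-- `x` and `y` lie in the same `t`-ball of level `l` -/
def NearT (t : P.T) (l : ℤ) (x y : R) : Prop := x = y ∨ P.lev t (x - y) ≤ l

/-- degree (logarithm of the volume) of a box -/
noncomputable def deg (ρ : P.Ω → ℝ) (m : P.T → ℤ) : ℝ :=
  ∑ v, (P.e v : ℝ) * Real.log (ρ v) + ∑ t, P.lq t * (m t : ℝ)

open scoped Classical in
/-- truncated level -/
noncomputable def cap (t : P.T) (m : ℤ) (x : R) : ℤ := if x = 0 then m else max (P.lev t x) m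

/-- truncated logarithm of the norm -/
noncomputable def kap (ρ : P.Ω → ℝ) (m : P.T → ℤ) (x : R) : ℝ :=
  ∑ v, (P.e v : ℝ) * (Real.log (‖P.em x v‖ ^ 2 + ρ v ^ 2) / 2)
    + ∑ t, P.lq t * (P.cap t (m t) x : ℝ)

open scoped Classical in
/-- the difference of `kap` and `ln` off zero -/
noncomputable def gap (ρ : P.Ω → ℝ) (m : P.T → ℤ) (x : R) : ℝ :=
  if x = 0 then 0 else P.kap ρ m x - P.ln x

/-- energy of a finite set (the diagonal contributes `0`) -/
noncomputable def En (B : Finset R) : ℝ := ∑ x ∈ B, ∑ y ∈ B, P.ln (x - y)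

/-- sum of the gaps over pairs -/
noncomputable def Gp (ρ : P.Ω → ℝ) (m : P.T → ℤ) (B : Finset R) : ℝ :=
  ∑ x ∈ B, ∑ y ∈ B, P.gap ρ m (x - y)

open scoped Classical in
/-- number of elements of `A` in a `v`-ball -/
noncomputable def cntV (A : Finset R) (v : P.Ω) (z : E (P.e v)) (r : ℝ) : ℕ :=
  (A.filter fun x => ‖P.em x v - z‖ ≤ r).card

open scoped Classical in
/-- number of elements of `A` in a `t`-ball -/
noncomputable def cntT (A : Finset R) (t : P.T) (a : R) (l : ℤ) : ℕ :=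
  (A.filter fun x => P.NearT t l x a).card

/-- the geometric facts used about `R` -/
structure Geo (C₁ : ℝ) : Prop where
  C₁_nonneg : 0 ≤ C₁
  ne : Nonempty P.Ω
  e_eq : ∀ v, P.e v = 1 ∨ P.e v = 2
  lq_pos : ∀ t, 0 < P.lq t
  em_ne : ∀ x, x ≠ 0 → ∀ v, P.em x v ≠ 0
  lev_zero : ∀ t, P.lev t 0 = 0
  lev_neg : ∀ t x, P.lev t (-x) = P.lev t x
  lev_add : ∀ t x y, x ≠ 0 → y ≠ 0 → x + y ≠ 0 → P.lev t (x + y) ≤ max (P.lev t x) (P.lev t y)
  ln_nonneg : ∀ x, x ≠ 0 → 0 ≤ P.ln x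
  /-- large boxes contain elements of `R` -/
  cov : ∀ (ρ : P.Ω → ℝ) (m : P.T → ℤ), (∀ v, 0 < ρ v) → C₁ ≤ P.deg ρ m →
    ∀ (c : (v : P.Ω) → E (P.e v)) (a : R),
      ∃ x : R, (∀ v, ‖P.em x v - c v‖ ≤ ρ v) ∧ ∀ t, P.NearT t (m t) x a

/-- the facts used about `R`: those of `Geo` and a lower bound for the energy of all finite sets -/
structure Good (C₁ : ℝ) : Prop extends P.Geo C₁ where
  low : ∀ B : Finset R, B.Nonempty → (B.card : ℝ) ^ 2 * (Real.log B.card - C₁) ≤ P.En B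

/-- optimal sets: `A` minimises the energy among the sets with the same number of elements, has no
element with large potential, and is a system of representatives modulo `L` -/
structure Opt (C₁ : ℝ) (A : Finset R) (L : AddSubgroup R) : Prop where
  ne : A.Nonempty
  min : ∀ B : Finset R, B.card = A.card → P.En A ≤ P.En B
  pot : ∀ x ∈ A, ∑ b ∈ A, P.ln (x - b) ≤ A.card * (Real.log A.card + C₁)
  inj : ∀ x ∈ A, ∀ y ∈ A, x - y ∈ L → x = y
  sur : ∀ x : R, ∃ a ∈ A, x - a ∈ L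
  big : ∀ x ∈ L, x ≠ 0 → Real.log A.card ≤ P.ln x

open scoped Classical in
/-- `1_B - |B|/|A|` -/
noncomputable def fB (A B : Finset R) (x : R) : ℝ :=
  (if x ∈ B then 1 else 0) - (B.card : ℝ) / A.card

/-- contribution of an infinite place to the defect -/
noncomputable def DV (ρ : P.Ω → ℝ) (A B : Finset R) (v : P.Ω) : ℝ :=
  -((P.e v : ℝ) / 2) * ∑ x ∈ A, ∑ y ∈ A, fB A B x * fB A B y *
    Real.log (‖P.em (x - y) v‖ ^ 2 + ρ v ^ 2)

/-- contribution of a finite place to the defect -/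
noncomputable def DT (m : P.T → ℤ) (A B : Finset R) (t : P.T) : ℝ :=
  -(P.lq t) * ∑ x ∈ A, ∑ y ∈ A, fB A B x * fB A B y * (P.cap t (m t) (x - y) : ℝ)

/-- the total degree -/
noncomputable def Nt : ℝ := ∑ v, (P.e v : ℝ) + ∑ t, P.lq t

/-- the largest `M` with `M * Nt ≤ log n` -/
noncomputable def Mx (n : ℕ) : ℕ := ⌊Real.log n / P.Nt⌋₊

/-- a frame for `A`: scales `s v`, levels `j t` of total degree `log |A|` such that most of `A` lies
in a bounded box (with centre `0`), and there are few elements in small balls -/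
structure Frame (C c : ℝ) (K : ℕ) (A : Finset R) (s : P.Ω → ℝ) (j : P.T → ℤ) : Prop where
  spos : ∀ v, 0 < s v
  deg_eq : P.deg s j = Real.log A.card
  zero_mem : (0 : R) ∈ A
  main : ∃ A₀ ⊆ A, (3 / 4 : ℝ) * A.card ≤ A₀.card ∧ ∀ x ∈ A₀,
    (∀ v, ‖P.em x v‖ ≤ Real.exp K * s v) ∧ ∀ t, P.NearT t (j t + K) x 0
  smallV : ∀ M : ℕ, M ≤ P.Mx A.card → ∀ v z,
    (P.cntV A v z (Real.exp (-(M : ℝ)) * s v) : ℝ) ≤ C * Real.exp (-(c * M)) * A.card
  smallT : ∀ M : ℕ, M ≤ P.Mx A.card → ∀ t a,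
    (P.cntT A t a (j t - M) : ℝ) ≤ C * Real.exp (-(c * M)) * A.card
  gapM : ∀ M : ℕ, M ≤ P.Mx A.card →
    P.Gp (fun v => Real.exp (-(M : ℝ)) * s v) (fun t => j t - M) A
      ≤ C * Real.exp (-(c * M)) * (A.card : ℝ) ^ 2

open scoped Classical in
/-- excess of `x` over the frame -/
noncomputable def exc (s : P.Ω → ℝ) (j : P.T → ℤ) (x : R) : ℝ :=
  ∑ v, (P.e v : ℝ) * Real.posLog (‖P.em x v‖ / s v)
    + ∑ t, P.lq t * (if x = 0 then 0 else ((max (P.lev t x - j t) 0 : ℤ) : ℝ))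

end Data

end Pool.NS
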