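import Pool.Agent.Work.MP_b29d7f_ns.Basic

/-!
# Interface: statements of the blocks (proofs in BLUEPRINT.md)
-/

set_option autoImplicit false

open Finset Filter Topology MeasureTheory

namespace Pool.NS

/-! ## Part A: positive definiteness -/

open scoped Classical in
/-- PDG: `-log(‖x-y‖²+ρ²)` is conditionally positive definite -/
def Stmt_PDG : Prop :=
  ∀ (k : ℕ), (k = 1 ∨ k = 2) → ∀ (ι : Type) (s : Finset ι) (y : ι → E k) (f : ι → ℝ) (ρ : ℝ),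
    0 < ρ → ∑ i ∈ s, f i = 0 →
    ∑ i ∈ s, ∑ j ∈ s, f i * f j * Real.log (‖y i - y j‖ ^ 2 + ρ ^ 2) ≤ 0

open scoped Classical in
/-- PDL: quantitative form for `1_B - |B|/|A|` -/
def Stmt_PDL : Prop :=
  ∀ θ : ℝ, 0 < θ → θ ≤ 1 / 2 → ∃ c C : ℝ, 0 < c ∧ 0 ≤ C ∧
    ∀ (k : ℕ), (k = 1 ∨ k = 2) → ∀ (ι : Type) (s B : Finset ι) (y : ι → E k) (z₀ : E k)
      (ρ r₁ r₂ : ℝ), B ⊆ s → B.Nonempty → 0 < ρ → ρ ≤ r₁ → 0 < r₂ →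
      (∀ b ∈ B, ‖y b - z₀‖ ≤ r₁) →
      (∀ z : E k, ((s.filter fun a => ‖y a - z‖ ≤ r₂).card : ℝ) ≤ (1 - θ) * s.card) →
      c * (B.card : ℝ) ^ 2 * (Real.log (r₂ / r₁) - C) ≤
        -∑ i ∈ s, ∑ j ∈ s, ((if i ∈ B then 1 else 0) - (B.card : ℝ) / s.card)
          * ((if j ∈ B then 1 else 0) - (B.card : ℝ) / s.card)
          * Real.log (‖y i - y j‖ ^ 2 + ρ ^ 2)

/-- PDT: the same for finite places -/
def Stmt_PDT : Prop :=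
  ∀ (R : Type) [CommRing R] (P : Data R) (C₁ : ℝ), P.Good C₁ →
    ∀ (A B : Finset R) (m : P.T → ℤ) (t : P.T), B ⊆ A → B.Nonempty →
      0 ≤ P.DT m A B t ∧
      ∀ (θ : ℝ) (l l₂ : ℤ) (a : R), 0 ≤ θ → m t ≤ l → l ≤ l₂ → (∀ b ∈ B, P.NearT t l b a) →
        (∀ a' : R, (P.cntT A t a' l₂ : ℝ) ≤ (1 - θ) * A.card) →
        P.lq t * ((l₂ - l : ℤ) : ℝ) * (θ * B.card) ^ 2 ≤ P.DT m A B t

open scoped Classical in
/-- COVB: a ball of radius `t * r` is covered by `25 * t ^ 2` balls of radius `r` -/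
def Stmt_COVB : Prop :=
  ∀ (k : ℕ), (k = 1 ∨ k = 2) → ∀ (ι : Type) (s : Finset ι) (y : ι → E k) (r N t : ℝ),
    0 < r → 1 ≤ t → (∀ z : E k, ((s.filter fun i => ‖y i - z‖ ≤ r).card : ℝ) ≤ N) →
    ∀ z : E k, ((s.filter fun i => ‖y i - z‖ ≤ t * r).card : ℝ) ≤ 25 * t ^ 2 * N

open scoped Classical in
/-- FARP: far points contribute little -/
def Stmt_FARP : Prop :=
  ∃ C : ℝ, 0 ≤ C ∧ ∀ (k : ℕ), (k = 1 ∨ k = 2) → ∀ (ι : Type) (s : Finset ι) (y : ι → E k)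
    (r b : ℝ), 0 < r → 0 < b → b ≤ 1 →
    (∀ z : E k, ((s.filter fun i => ‖y i - z‖ ≤ r).card : ℝ) ≤ b * s.card) →
    ∀ z : E k, ∑ i ∈ s.filter (fun i => r < ‖y i - z‖), r ^ 2 / ‖y i - z‖ ^ 2
      ≤ C * (b * (Real.log (1 / b) + 1)) * s.card

/-! ## Part B: tightness -/

/-- T0: the basic inequality -/
def Stmt_T0 : Prop :=
  ∀ (R : Type) [CommRing R] (P : Data R) (C₁ : ℝ), P.Good C₁ → ∃ C : ℝ, 0 ≤ C ∧
    ∀ (A : Finset R) (L : AddSubgroup R), P.Opt C₁ A L →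
    ∀ (ρ : P.Ω → ℝ) (m : P.T → ℤ), (∀ v, 0 < ρ v) → ∀ B ⊆ A, B.Nonempty →
      P.Gp ρ m B + (∑ v, P.DV ρ A B v + ∑ t, P.DT m A B t) ≤
        (B.card : ℝ) ^ 2 * (Real.log (A.card / B.card) + C) + max 0 (-(P.deg ρ m)) * B.card
          + 2 * ((B.card : ℝ) / A.card) * ∑ x ∈ B, ∑ b ∈ A, P.gap ρ m (x - b)

/-- CNT: a box contains at most `C (1 + exp deg)` elements -/
def Stmt_CNT : Prop :=
  ∀ (R : Type) [CommRing R] (P : Data R) (C₁ : ℝ), P.Geo C₁ → ∃ C : ℝ, 0 ≤ C ∧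
    ∀ (ρ : P.Ω → ℝ) (m : P.T → ℤ), (∀ v, 0 < ρ v) →
    ∀ (c : (v : P.Ω) → E (P.e v)) (a : R) (B : Finset R),
      (∀ x ∈ B, (∀ v, ‖P.em x v - c v‖ ≤ ρ v) ∧ ∀ t, P.NearT t (m t) x a) →
      (B.card : ℝ) ≤ C * (1 + Real.exp (P.deg ρ m))

/-- CNTL: a large box contains at least `c exp deg` elements -/
def Stmt_CNTL : Prop :=
  ∀ (R : Type) [CommRing R] (P : Data R) (C₁ : ℝ), P.Geo C₁ → ∃ C c : ℝ, 0 < c ∧
    ∀ (ρ : P.Ω → ℝ) (m : P.T → ℤ), (∀ v, 0 < ρ v) → C ≤ P.deg ρ m →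
    ∀ (z : (v : P.Ω) → E (P.e v)) (a : R), ∃ B : Finset R,
      c * Real.exp (P.deg ρ m) ≤ B.card ∧
      ∀ x ∈ B, (∀ v, ‖P.em x v - z v‖ ≤ ρ v) ∧ ∀ t, P.NearT t (m t) x a

/-- T1: if all balls have small mass, the sum of the gaps is small -/
def Stmt_T1 : Prop :=
  ∀ (R : Type) [CommRing R] (P : Data R) (C₁ : ℝ), P.Good C₁ → ∃ θ₀ C : ℝ, 0 < θ₀ ∧ θ₀ ≤ 1 / 2 ∧
    0 ≤ C ∧ ∀ (A : Finset R) (L : AddSubgroup R), P.Opt C₁ A L →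
    ∀ (ρ : P.Ω → ℝ) (m : P.T → ℤ) (b : ℝ), (∀ v, 0 < ρ v) → 0 < b → b ≤ θ₀ →
      (∀ v z, (P.cntV A v z (ρ v) : ℝ) ≤ b * A.card) →
      (∀ t a, (P.cntT A t a (m t) : ℝ) ≤ b * A.card) →
      P.Gp ρ m A ≤ C * ((A.card : ℝ) ^ 2 * (b * (Real.log (1 / b) + 1))
        + max 0 (-(P.deg ρ m)) * A.card)

/-- SCAL: scales at which the maximal mass of a ball passes `θ` -/
def Stmt_SCAL : Prop :=
  ∀ (R : Type) [CommRing R] (P : Data R) (C₁ : ℝ), P.Geo C₁ → ∀ θ : ℝ, 0 < θ → θ ≤ 1 / 2 →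
    ∀ A : Finset R, 1 / θ ≤ A.card → ∃ (ρ : P.Ω → ℝ) (m : P.T → ℤ), (∀ v, 0 < ρ v) ∧
      (∀ v z, (P.cntV A v z (ρ v) : ℝ) ≤ θ * A.card) ∧
      (∀ t a, (P.cntT A t a (m t) : ℝ) ≤ θ * A.card) ∧
      (∀ v, ∃ z, θ * A.card < P.cntV A v z (2 * ρ v)) ∧
      (∀ t, ∃ a, θ * A.card < P.cntT A t a (m t + 1))

/-- CONC: concentration -/
def Stmt_CONC : Prop :=
  ∀ (R : Type) [CommRing R] (P : Data R) (C₁ : ℝ), P.Good C₁ → ∃ θ₁ : ℝ, 0 < θ₁ ∧ θ₁ ≤ 1 / 2 ∧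
    ∀ θ : ℝ, 0 < θ → θ ≤ θ₁ → ∀ η : ℝ, 0 < η → η ≤ 1 / 2 → ∃ C : ℕ,
    ∀ (A : Finset R) (L : AddSubgroup R), P.Opt C₁ A L →
    ∀ (ρ : P.Ω → ℝ) (m : P.T → ℤ), (∀ v, 0 < ρ v) →
      (∀ v z, (P.cntV A v z (ρ v) : ℝ) ≤ θ * A.card) →
      (∀ t a, (P.cntT A t a (m t) : ℝ) ≤ θ * A.card) →
      (∀ v, ∃ z, θ * A.card < P.cntV A v z (2 * ρ v)) →
      (∀ t, ∃ a, θ * A.card < P.cntT A t a (m t + 1)) →
      ∀ N : ℕ, (C : ℝ) * (1 + max 0 (-(P.deg ρ m)) / A.card) ≤ N →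
      (∀ v, ∃ z, (1 - η) * A.card < P.cntV A v z (Real.exp N * ρ v)) ∧
      (∀ t, ∃ a, (1 - η) * A.card < P.cntT A t a (m t + N))

/-- T2: the right scales -/
def Stmt_T2 : Prop :=
  ∀ (R : Type) [CommRing R] (P : Data R) (C₁ : ℝ), P.Good C₁ → ∀ θ₀ : ℝ, 0 < θ₀ → θ₀ ≤ 1 / 2 →
    ∃ K n₀ : ℕ, ∀ (A : Finset R) (L : AddSubgroup R), P.Opt C₁ A L → n₀ ≤ A.card →
    ∃ (ρ : P.Ω → ℝ) (m : P.T → ℤ), (∀ v, 0 < ρ v) ∧
      (∀ v z, (P.cntV A v z (ρ v) : ℝ) ≤ θ₀ * A.card) ∧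
      (∀ t a, (P.cntT A t a (m t) : ℝ) ≤ θ₀ * A.card) ∧
      |P.deg ρ m - Real.log A.card| ≤ K ∧
      ∃ a₀ ∈ A, ∃ A₀ ⊆ A, (3 / 4 : ℝ) * A.card ≤ A₀.card ∧ ∀ x ∈ A₀,
        (∀ v, ‖P.em (x - a₀) v‖ ≤ Real.exp K * ρ v) ∧ ∀ t, P.NearT t (m t + K) x a₀

/-- T3: exponential decay of the mass of small balls -/
def Stmt_T3 : Prop :=
  ∀ (R : Type) [CommRing R] (P : Data R) (C₁ : ℝ), P.Good C₁ →
    ∃ (C c : ℝ) (K n₀ : ℕ), 0 < C ∧ 0 < c ∧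
    ∀ (A : Finset R) (L : AddSubgroup R), P.Opt C₁ A L → n₀ ≤ A.card →
    ∃ (s : P.Ω → ℝ) (j : P.T → ℤ), (∀ v, 0 < s v) ∧ P.deg s j = Real.log A.card ∧
      (∀ M : ℕ, M ≤ P.Mx A.card → ∀ v z,
        (P.cntV A v z (Real.exp (-(M : ℝ)) * s v) : ℝ) ≤ C * Real.exp (-(c * M)) * A.card) ∧
      (∀ M : ℕ, M ≤ P.Mx A.card → ∀ t a,
        (P.cntT A t a (j t - M) : ℝ) ≤ C * Real.exp (-(c * M)) * A.card) ∧
      ∃ a₀ ∈ A, ∃ A₀ ⊆ A, (3 / 4 : ℝ) * A.card ≤ A₀.card ∧ ∀ x ∈ A₀,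
        (∀ v, ‖P.em (x - a₀) v‖ ≤ Real.exp K * s v) ∧ ∀ t, P.NearT t (j t + K) x a₀

/-- FRAME: a translate of every large optimal set has a frame -/
def Stmt_FRAME : Prop :=
  ∀ (R : Type) [CommRing R] (P : Data R) (C₁ : ℝ), P.Good C₁ →
    ∃ (C c : ℝ) (K n₀ : ℕ), 0 < C ∧ 0 < c ∧
    ∀ (A : Finset R) (L : AddSubgroup R), P.Opt C₁ A L → n₀ ≤ A.card →
    ∃ (A' : Finset R) (s : P.Ω → ℝ) (j : P.T → ℤ), A'.card = A.card ∧ P.Opt C₁ A' L ∧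
      P.Frame C c K A' s j

/-! ## Part C: sequences of optimal sets, potentials -/

/-- a sequence of optimal sets with frames -/
structure Sq {R : Type} [CommRing R] (P : Data R) where
  C₁ : ℝ
  C : ℝ
  c : ℝ
  K : ℕ
  A : ℕ → Finset R
  L : ℕ → AddSubgroup R
  s : ℕ → P.Ω → ℝ
  j : ℕ → P.T → ℤ
  good : P.Good C₁
  hC : 0 < C
  hc : 0 < c
  opt : ∀ l, P.Opt C₁ (A l) (L l)
  frame : ∀ l, P.Frame C c K (A l) (s l) (j l)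
  card : Tendsto (fun l => ((A l).card : ℝ)) atTop atTop

namespace Sq

variable {R : Type} [CommRing R] {P : Data R} (S : Sq P)

/-- number of elements of `A l` -/
noncomputable def n (l : ℕ) : ℝ := ((S.A l).card : ℝ)

/-- scaled coordinates -/
noncomputable def X (l : ℕ) (x : R) (v : P.Ω) : E (P.e v) := (S.s l v)⁻¹ • P.em x v

/-- excess -/
noncomputable def ex (l : ℕ) (x : R) : ℝ := P.exc (S.s l) (S.j l) x

/-- potential at an infinite place -/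
noncomputable def pV (l : ℕ) (v : P.Ω) (ξ : E (P.e v)) : ℝ :=
  (P.e v : ℝ) * ((S.n l)⁻¹ * ∑ b ∈ S.A l,
    Real.log (‖ξ - S.X l b v‖ ^ 2 + Real.exp (-(P.Mx (S.A l).card : ℝ)) ^ 2) / 2)

/-- potential of the finite places -/
noncomputable def pT (l : ℕ) (x : R) : ℝ :=
  ∑ t, P.lq t * ((S.n l)⁻¹ * ∑ b ∈ S.A l,
    ((P.cap t (S.j l t - P.Mx (S.A l).card) (x - b) - S.j l t : ℤ) : ℝ))

/-- potential -/
noncomputable def Ph (l : ℕ) (x : R) : ℝ := ∑ v, S.pV l v (S.X l x v) + S.pT l x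

end Sq

/-- KAPS: the truncated kernels at scale `M` in scaled coordinates -/
def Stmt_KAPS : Prop :=
  ∀ (R : Type) [CommRing R] (P : Data R) (S : Sq P) (l M : ℕ),
    P.deg (fun v => Real.exp (-(M : ℝ)) * S.s l v) (fun t => S.j l t - M)
      = Real.log (S.n l) - M * P.Nt ∧
    ∀ x y : R, P.kap (fun v => Real.exp (-(M : ℝ)) * S.s l v) (fun t => S.j l t - M) (x - y)
      = Real.log (S.n l)
        + (∑ v, (P.e v : ℝ) *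
            (Real.log (‖S.X l x v - S.X l y v‖ ^ 2 + Real.exp (-(M : ℝ)) ^ 2) / 2)
          + ∑ t, P.lq t * ((P.cap t (S.j l t - M) (x - y) - S.j l t : ℤ) : ℝ))

/-- LB: lower bounds for potentials, for all truncations -/
def Stmt_LB : Prop :=
  ∀ (R : Type) [CommRing R] (P : Data R) (S : Sq P), ∃ C : ℝ, 0 ≤ C ∧ ∀ l M : ℕ,
    M ≤ P.Mx (S.A l).card →
    (∀ (v : P.Ω) (ξ : E (P.e v)), 3 / 4 * Real.posLog ‖ξ‖ - C ≤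
      (S.n l)⁻¹ * ∑ b ∈ S.A l, Real.log (‖ξ - S.X l b v‖ ^ 2 + Real.exp (-(M : ℝ)) ^ 2) / 2) ∧
    (∀ (t : P.T) (x : R), x ≠ 0 → 3 / 4 * ((max (P.lev t x - S.j l t) 0 : ℤ) : ℝ) - C ≤
      (S.n l)⁻¹ * ∑ b ∈ S.A l, ((P.cap t (S.j l t - M) (x - b) - S.j l t : ℤ) : ℝ)) ∧
    (∀ t : P.T, -C ≤
      (S.n l)⁻¹ * ∑ b ∈ S.A l, ((P.cap t (S.j l t - M) (0 - b) - S.j l t : ℤ) : ℝ))

open scoped Classical in
/-- TAIL: almost all of `A l` lies in a fixed box, and the rest has a small first moment -/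
def Stmt_TAIL : Prop :=
  ∀ (R : Type) [CommRing R] (P : Data R) (S : Sq P), ∃ C : ℝ, 1 ≤ C ∧
    (∀ᶠ l in atTop, ∑ x ∈ S.A l, S.ex l x ≤ C * S.n l) ∧
    ∀ ε : ℝ, 0 < ε → ∀ᶠ l in atTop,
      ∑ x ∈ (S.A l).filter (fun x => C ≤ S.ex l x), S.ex l x ≤ ε * S.n l

/-- UB: upper bounds for potentials -/
def Stmt_UB : Prop :=
  ∀ (R : Type) [CommRing R] (P : Data R) (S : Sq P), ∃ C : ℝ, 0 ≤ C ∧ ∀ᶠ l in atTop, ∀ M : ℕ,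
    (∀ (v : P.Ω) (ξ : E (P.e v)),
      (S.n l)⁻¹ * ∑ b ∈ S.A l, Real.log (‖ξ - S.X l b v‖ ^ 2 + Real.exp (-(M : ℝ)) ^ 2) / 2
        ≤ Real.posLog ‖ξ‖ + C) ∧
    (∀ (t : P.T) (x : R), x ≠ 0 →
      (S.n l)⁻¹ * ∑ b ∈ S.A l, ((P.cap t (S.j l t - M) (x - b) - S.j l t : ℤ) : ℝ)
        ≤ ((max (P.lev t x - S.j l t) 0 : ℤ) : ℝ) + C) ∧
    (∀ t : P.T, (S.n l)⁻¹ * ∑ b ∈ S.A l, ((P.cap t (S.j l t - M) (0 - b) - S.j l t : ℤ) : ℝ) ≤ C)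

open scoped Classical in
/-- `A l` is almost the set of sublevel `lam l` of the potential -/
structure IsSub {R : Type} [CommRing R] {P : Data R} (S : Sq P) (lam : ℕ → ℝ) : Prop where
  bdd : ∃ B : ℝ, ∀ᶠ l in atTop, |lam l| ≤ B
  mem : ∀ ε : ℝ, 0 < ε → ∀ᶠ l in atTop, ∀ y : R, S.Ph l y < lam l - ε → y ∈ S.A l
  few : ∀ ε : ℝ, 0 < ε → ∀ᶠ l in atTop,
    (((S.A l).filter fun x => lam l < S.Ph l x).card : ℝ) ≤ ε * S.n l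

/-- SUB: `A l` is almost a sublevel set of the potential -/
def Stmt_SUB : Prop :=
  ∀ (R : Type) [CommRing R] (P : Data R) (S : Sq P), ∃ lam : ℕ → ℝ, IsSub S lam

/-- TCON: continuity of the potential of the finite places -/
def Stmt_TCON : Prop :=
  ∀ (R : Type) [CommRing R] (P : Data R) (S : Sq P), ∃ C c : ℝ, 0 ≤ C ∧ 0 < c ∧
    ∀ r l : ℕ, r ≤ P.Mx (S.A l).card → ∀ x y : R, (∀ t, P.NearT t (S.j l t - r) x y) →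
      |S.pT l x - S.pT l y| ≤ C * Real.exp (-(c * r))

/-- TBD: the potential of the finite places is bounded below, and bounded above on boxes -/
def Stmt_TBD : Prop :=
  ∀ (R : Type) [CommRing R] (P : Data R) (S : Sq P), ∃ C : ℝ, 0 ≤ C ∧ ∀ᶠ l in atTop,
    (∀ x : R, -C ≤ S.pT l x) ∧ ∀ x : R, S.pT l x ≤ C * (1 + S.ex l x)

/-- the ultrafilter along which limits are taken -/
noncomputable abbrev 𝒰 : Filter ℕ := (hyperfilter ℕ : Filter ℕ)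

/-- a density with compact support and its logarithmic potential -/
structure Dens (k : ℕ) (f φ : E k → ℝ) : Prop where
  meas : Measurable f
  nonneg : ∀ z, 0 ≤ f z
  bdd : ∃ B, ∀ z, f z ≤ B
  supp : ∃ R₀, ∀ z, R₀ ≤ ‖z‖ → f z = 0
  mass : ∫ z, f z = 1
  pot : ∀ ξ, φ ξ = (k : ℝ) * ∫ z, Real.log ‖ξ - z‖ * f z

/-- `f` is the limit density of the `v`-coordinates of the sets `A l` -/
structure WeakV {R : Type} [CommRing R] {P : Data R} (S : Sq P) (v : P.Ω)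
    (f : E (P.e v) → ℝ) : Prop where
  meas : Measurable f
  nonneg : ∀ z, 0 ≤ f z
  bdd : ∃ B, ∀ z, f z ≤ B
  supp : ∃ R₀, ∀ z, R₀ ≤ ‖z‖ → f z = 0
  mass : ∫ z, f z = 1
  weak : ∀ g : E (P.e v) → ℝ, Continuous g → HasCompactSupport g →
    Tendsto (fun l => (S.n l)⁻¹ * ∑ b ∈ S.A l, g (S.X l b v)) 𝒰 (𝓝 (∫ z, g z * f z))

/-- LIM1: the limit density exists -/
def Stmt_LIM1 : Prop :=
  ∀ (R : Type) [CommRing R] (P : Data R) (S : Sq P) (v : P.Ω), ∃ f : E (P.e v) → ℝ, WeakV S v f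

/-- EQC: equicontinuity and bounds of the potentials -/
def Stmt_EQC : Prop :=
  ∀ (R : Type) [CommRing R] (P : Data R) (S : Sq P), ∃ C c : ℝ, 0 ≤ C ∧ 0 < c ∧
    ∀ (l M : ℕ), M ≤ P.Mx (S.A l).card → ∀ (v : P.Ω) (ξ ξ' : E (P.e v)), ‖ξ - ξ'‖ ≤ 1 →
      |S.pV l v ξ - S.pV l v ξ'| ≤ C * (‖ξ - ξ'‖ ^ c + Real.exp (-(c * P.Mx (S.A l).card))) ∧
      |S.pV l v ξ - (P.e v : ℝ) * ((S.n l)⁻¹ * ∑ b ∈ S.A l,
        Real.log (‖ξ - S.X l b v‖ ^ 2 + Real.exp (-(M : ℝ)) ^ 2) / 2)| ≤ C * Real.exp (-(c * M))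

/-- the limit of the `v`-coordinates of the sets `A l` and of the potentials -/
structure LimV {R : Type} [CommRing R] {P : Data R} (S : Sq P) (v : P.Ω)
    (f φ : E (P.e v) → ℝ) : Prop where
  dens : Dens (P.e v) f φ
  weak : ∀ g : E (P.e v) → ℝ, Continuous g → HasCompactSupport g →
    Tendsto (fun l => (S.n l)⁻¹ * ∑ b ∈ S.A l, g (S.X l b v)) 𝒰 (𝓝 (∫ z, g z * f z))
  unif : ∀ B ε : ℝ, 0 < ε → ∀ᶠ l in 𝒰, ∀ ξ : E (P.e v), ‖ξ‖ ≤ B → |S.pV l v ξ - φ ξ| ≤ ε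

/-- LIM2: the potentials converge to the potential of the limit density -/
def Stmt_LIM2 : Prop :=
  ∀ (R : Type) [CommRing R] (P : Data R) (S : Sq P) (v : P.Ω) (f : E (P.e v) → ℝ),
    WeakV S v f → LimV S v f (fun ξ => (P.e v : ℝ) * ∫ z, Real.log ‖ξ - z‖ * f z)

/-! ## Part D: reflections -/

open scoped Classical in
/-- COMP1: energy comparison with a competitor obtained by moving pieces of `A l` by translations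
in the `v`-coordinate -/
def Stmt_COMP1 : Prop :=
  ∀ (R : Type) [CommRing R] (P : Data R) (S : Sq P) (W : ℝ), ∃ C : ℝ, 0 ≤ C ∧ ∀ (v : P.Ω) (M : ℕ)
    (ι : Type) (F : Finset ι) (Q : ι → Set (E (P.e v))) (w : ι → E (P.e v)) (κ ε : ℝ),
    0 < κ → 0 < ε → (∀ i ∈ F, ‖w i‖ ≤ W) →
    (∀ i ∈ F, ∀ i' ∈ F, i ≠ i' → Disjoint (Q i) (Q i')) →
    (∀ i ∈ F, ∀ i' ∈ F, i ≠ i' → ∀ z ∈ Q i, ∀ z' ∈ Q i', κ ≤ ‖(z + w i) - (z' + w i')‖) →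
    ∀ᶠ l in atTop,
      -ε - C * Real.exp (-(S.c * M))
        - C * (((S.A l).filter (fun x => ∀ i ∈ F, S.X l x v ∉ Q i)).card / S.n l) ≤
      (S.n l)⁻¹ ^ 2 * ∑ i ∈ F, ∑ i' ∈ F, ∑ x ∈ (S.A l).filter (fun x => S.X l x v ∈ Q i),
        ∑ y ∈ (S.A l).filter (fun x => S.X l x v ∈ Q i'),
          (Real.log (‖(S.X l x v + w i) - (S.X l y v + w i')‖ ^ 2 + Real.exp (-(M : ℝ)) ^ 2)
            - Real.log (‖S.X l x v - S.X l y v‖ ^ 2 + Real.exp (-(M : ℝ)) ^ 2))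

end Pool.NS
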