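import Pool.Agent.Work.MP_b29d7f_ns.Basic2

/-!
# Interface, second part: reflections, potential theory, the end of the analytic part
-/

set_option autoImplicit false

open Finset Filter Topology MeasureTheory

namespace Pool.NS

/-- the reflection in the hyperplane `⟪u, z⟫ = a` -/
noncomputable def rfx {k : ℕ} (u : E k) (a : ℝ) (z : E k) : E k :=
  z - (2 * (inner ℝ u z - a)) • u

open scoped Classical in
/-- reflection on `Q` and its mirror image, identity elsewhere -/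
noncomputable def swp {k : ℕ} (u : E k) (a : ℝ) (Q : Set (E k)) (z : E k) : E k :=
  if z ∈ Q ∨ rfx u a z ∈ Q then rfx u a z else z

/-- union of the cubes of side `2⁻ᵖ` with index in `F`, in the coordinates `U`, where the coordinate
`i₀` is shifted by `a` -/
def grd {k : ℕ} (U : E k ≃ₗᵢ[ℝ] E k) (i₀ : Fin k) (a : ℝ) (p : ℕ) (F : Finset (Fin k → ℤ)) :
    Set (E k) :=
  {z | (fun i => ⌊(2 : ℝ) ^ p * ((U z) i - if i = i₀ then a else 0)⌋) ∈ F}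

/-- the unit vector orthogonal to the mirror -/
noncomputable def uv {k : ℕ} (U : E k ≃ₗᵢ[ℝ] E k) (i₀ : Fin k) : E k :=
  U.symm (EuclideanSpace.single i₀ 1)

/-- change of the energy under a map -/
noncomputable def dI {k : ℕ} (f : E k → ℝ) (τ : E k → E k) : ℝ :=
  ∫ z, ∫ z', (Real.log ‖τ z - τ z'‖ - Real.log ‖z - z'‖) * (f z * f z')

open scoped Classical in
/-- WKC: weak convergence on sets with boundary of measure zero, for pairs -/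
def Stmt_WKC : Prop :=
  ∀ (R : Type) [CommRing R] (P : Data R) (S : Sq P) (v : P.Ω) (f φ : E (P.e v) → ℝ),
    LimV S v f φ → ∀ Q Q' : Set (E (P.e v)), Bornology.IsBounded Q → MeasurableSet Q →
      volume (frontier Q) = 0 → Bornology.IsBounded Q' → MeasurableSet Q' →
      volume (frontier Q') = 0 →
      Tendsto (fun l => (((S.A l).filter (fun x => S.X l x v ∈ Q)).card : ℝ) / S.n l) 𝒰
        (𝓝 (∫ z in Q, f z)) ∧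
      ∀ G : E (P.e v) → E (P.e v) → ℝ, Continuous (fun z : E (P.e v) × E (P.e v) => G z.1 z.2) →
      Tendsto (fun l => (S.n l)⁻¹ ^ 2 * ∑ x ∈ (S.A l).filter (fun x => S.X l x v ∈ Q),
        ∑ y ∈ (S.A l).filter (fun x => S.X l x v ∈ Q'), G (S.X l x v) (S.X l y v)) 𝒰
        (𝓝 (∫ z in Q, ∫ z' in Q', G z z' * (f z * f z')))

/-- the energy does not decrease much if pieces are translated -/
def TransMin {k : ℕ} (f : E k → ℝ) (c : ℝ) : Prop :=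
  ∀ W : ℝ, ∃ C : ℝ, 0 ≤ C ∧ ∀ (M : ℕ) (ι : Type) (F : Finset ι) (Q : ι → Set (E k))
    (w : ι → E k) (κ : ℝ), 0 < κ → (∀ i ∈ F, ‖w i‖ ≤ W) →
    (∀ i ∈ F, Bornology.IsBounded (Q i) ∧ MeasurableSet (Q i) ∧ volume (frontier (Q i)) = 0) →
    (∀ i ∈ F, ∀ i' ∈ F, i ≠ i' → Disjoint (Q i) (Q i')) →
    (∀ i ∈ F, ∀ i' ∈ F, i ≠ i' → ∀ z ∈ Q i, ∀ z' ∈ Q i', κ ≤ ‖(z + w i) - (z' + w i')‖) →
    -(C * Real.exp (-(c * M))) - C * (1 - ∑ i ∈ F, ∫ z in Q i, f z) ≤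
      ∑ i ∈ F, ∑ i' ∈ F, ∫ z in Q i, ∫ z' in Q i',
        (Real.log (‖(z + w i) - (z' + w i')‖ ^ 2 + Real.exp (-(M : ℝ)) ^ 2)
          - Real.log (‖z - z'‖ ^ 2 + Real.exp (-(M : ℝ)) ^ 2)) * (f z * f z')

/-- COMP2A: the limit form of COMP1 -/
def Stmt_COMP2A : Prop :=
  ∀ (R : Type) [CommRing R] (P : Data R) (S : Sq P) (v : P.Ω) (f φ : E (P.e v) → ℝ),
    LimV S v f φ → TransMin f S.c

/-- the mirror image of `grd` (up to the boundaries of the cubes) -/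
def mgr {k : ℕ} (U : E k ≃ₗᵢ[ℝ] E k) (i₀ : Fin k) (a : ℝ) (p : ℕ) (F : Finset (Fin k → ℤ)) :
    Set (E k) :=
  {z | (fun i => if i = i₀ then -⌊(2 : ℝ) ^ p * ((U z) i₀ - a)⌋ - 1
    else ⌊(2 : ℝ) ^ p * (U z) i⌋) ∈ F}

open scoped Classical in
/-- approximation of the swap by translations of the cubes of side `2 ^ (-q)` -/
noncomputable def trq {k : ℕ} (U : E k ≃ₗᵢ[ℝ] E k) (i₀ : Fin k) (a : ℝ) (p q : ℕ)
    (F : Finset (Fin k → ℤ)) (z : E k) : E k :=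
  if z ∈ grd U i₀ a p F ∪ mgr U i₀ a p F then
    z - ((2 * (⌊(2 : ℝ) ^ q * ((U z) i₀ - a)⌋ : ℝ) + 1) / 2 ^ q) • uv U i₀
  else z

/-- truncated change of the energy under a map -/
noncomputable def dIM {k : ℕ} (f : E k → ℝ) (M : ℕ) (τ : E k → E k) : ℝ :=
  ∫ z, ∫ z', (Real.log (‖τ z - τ z'‖ ^ 2 + Real.exp (-(M : ℝ)) ^ 2)
    - Real.log (‖z - z'‖ ^ 2 + Real.exp (-(M : ℝ)) ^ 2)) * (f z * f z')

/-- COMP2B: from `TransMin` to the maps `trq` -/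
def Stmt_COMP2B : Prop :=
  ∀ (k : ℕ) (f φ : E k → ℝ) (c : ℝ), (k = 1 ∨ k = 2) → Dens k f φ → TransMin f c →
    ∀ (U : E k ≃ₗᵢ[ℝ] E k) (i₀ : Fin k) (a : ℝ) (p : ℕ) (F : Finset (Fin k → ℤ)),
    (∀ g ∈ F, 0 ≤ g i₀) → ∃ C : ℝ, ∀ q M : ℕ, p ≤ q →
      -(C * Real.exp (-(c * M))) ≤ dIM f M (trq U i₀ a p q F)

/-- COMP2C: the limit `q → ∞`, `M → ∞` -/
def Stmt_COMP2C : Prop :=
  ∀ (k : ℕ) (f φ : E k → ℝ) (c : ℝ), (k = 1 ∨ k = 2) → Dens k f φ → 0 < c →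
    ∀ (U : E k ≃ₗᵢ[ℝ] E k) (i₀ : Fin k) (a : ℝ) (p : ℕ) (F : Finset (Fin k → ℤ)),
    (∀ g ∈ F, 0 ≤ g i₀) → (∃ C : ℝ, ∀ q M : ℕ, p ≤ q →
      -(C * Real.exp (-(c * M))) ≤ dIM f M (trq U i₀ a p q F)) →
    0 ≤ dI f (swp (uv U i₀) a (grd U i₀ a p F))

/-- APX: from grid sets to measurable sets -/
def Stmt_APX : Prop :=
  ∀ (k : ℕ) (f φ : E k → ℝ), (k = 1 ∨ k = 2) → Dens k f φ →
    ∀ (U : E k ≃ₗᵢ[ℝ] E k) (i₀ : Fin k) (a : ℝ),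
    (∀ (p : ℕ) (F : Finset (Fin k → ℤ)), (∀ g ∈ F, 0 ≤ g i₀) →
      0 ≤ dI f (swp (uv U i₀) a (grd U i₀ a p F))) →
    ∀ Q : Set (E k), MeasurableSet Q → Q ⊆ {z | a < inner ℝ (uv U i₀) z} →
      0 ≤ dI f (swp (uv U i₀) a Q)

/-- `f` is larger on one side of every mirror -/
def OneSided {k : ℕ} (f : E k → ℝ) : Prop :=
  ∀ (u : E k) (a : ℝ), ‖u‖ = 1 →
    (∀ᵐ z, a < inner ℝ u z → f (rfx u a z) ≤ f z) ∨ (∀ᵐ z, a < inner ℝ u z → f z ≤ f (rfx u a z))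

/-- SC: minimality with respect to all swaps for one mirror -/
def Stmt_SC : Prop :=
  ∀ (k : ℕ) (f φ : E k → ℝ), (k = 1 ∨ k = 2) → Dens k f φ → ∀ (u : E k) (a : ℝ), ‖u‖ = 1 →
    (∀ Q : Set (E k), MeasurableSet Q → Q ⊆ {z | a < inner ℝ u z} → 0 ≤ dI f (swp u a Q)) →
    (∀ᵐ z, a < inner ℝ u z → f (rfx u a z) ≤ f z) ∨ (∀ᵐ z, a < inner ℝ u z → f z ≤ f (rfx u a z))

/-- OS: the limit densities are one-sided -/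
def Stmt_OS : Prop :=
  ∀ (R : Type) [CommRing R] (P : Data R) (S : Sq P) (v : P.Ω) (f φ : E (P.e v) → ℝ),
    LimV S v f φ → OneSided f

/-! ## Part E: potential theory -/

/-- radial structure with centre `z₀` -/
structure Rad {k : ℕ} (f φ : E k → ℝ) (z₀ : E k) : Prop where
  low : ∀ B : ℝ, ∃ c : ℝ, 0 < c ∧ ∀ x y : E k, ‖x‖ ≤ B → ‖y‖ ≤ B → ‖x - z₀‖ ≤ ‖y - z₀‖ →
    c * (‖y - z₀‖ ^ 2 - ‖x - z₀‖ ^ 2) ≤ φ y - φ x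
  sym : ∀ᵐ z, f ((2 : ℝ) • z₀ - z) = f z
  mon : ∀ (u : E k) (a : ℝ), ‖u‖ = 1 → a < inner ℝ u z₀ →
    ∀ᵐ z, a < inner ℝ u z → f (rfx u a z) ≤ f z

/-- RAD: one-sided densities are radial about their barycentre -/
def Stmt_RAD : Prop :=
  ∀ (k : ℕ) (f φ : E k → ℝ), (k = 1 ∨ k = 2) → Dens k f φ → OneSided f → ∃ z₀, Rad f φ z₀

/-- UPM: modulus of continuity of potentials -/
def Stmt_UPM : Prop :=
  ∀ (k : ℕ) (f φ : E k → ℝ), (k = 1 ∨ k = 2) → Dens k f φ → ∀ B : ℝ, ∃ C : ℝ, 0 ≤ C ∧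
    ∀ x y : E k, ‖x‖ ≤ B → ‖y‖ ≤ B → ‖x - y‖ ≤ 1 / 2 →
      |φ x - φ y| ≤ C * ‖x - y‖ * Real.log (1 / ‖x - y‖)

/-- GRO: potentials are continuous and tend to infinity -/
def Stmt_GRO : Prop :=
  ∀ (k : ℕ) (f φ : E k → ℝ), (k = 1 ∨ k = 2) → Dens k f φ →
    Continuous φ ∧ ∀ B : ℝ, ∃ R₀ : ℝ, ∀ ξ, R₀ ≤ ‖ξ‖ → B ≤ φ ξ

/-- upper bound for the potential at the centre -/
def Flat {k : ℕ} (φ : E k → ℝ) (z₀ : E k) : Prop :=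
  ∃ K : ℝ, 0 ≤ K ∧ ∀ w : E k, ‖w‖ ≤ 1 / 2 → φ (z₀ + w) - φ z₀ ≤ K * ‖w‖ ^ (5 / 4 : ℝ)

/-- FLAC: complex places -/
def Stmt_FLAC : Prop :=
  ∀ (k : ℕ) (f φ : E k → ℝ) (z₀ : E k), k = 2 → Dens k f φ →
    (∀ᵐ z, f ((2 : ℝ) • z₀ - z) = f z) → Flat φ z₀

/-- modulus of the density at the centre -/
def Hold {k : ℕ} (f : E k → ℝ) (z₀ : E k) : Prop :=
  ∃ K : ℝ, 0 ≤ K ∧ ∀ u : E k, 0 < ‖u‖ → ‖u‖ ≤ 1 / 4 → ∃ h₀ : ℝ, 0 < h₀ ∧ ∀ h : ℝ, 0 < h → h < h₀ →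
    (∫ z in Metric.closedBall z₀ h, f z) - (∫ z in Metric.closedBall (z₀ + u) h, f z)
      ≤ K * h * ‖u‖ ^ (2 / 5 : ℝ)

/-- FLAR: real places -/
def Stmt_FLAR : Prop :=
  ∀ (k : ℕ) (f φ : E k → ℝ) (z₀ : E k), k = 1 → Dens k f φ → Rad f φ z₀ → Hold f z₀ → Flat φ z₀

/-! ## Part F: the end -/

/-- PLC: points of `R` near given points -/
def Stmt_PLC : Prop :=
  ∀ (R : Type) [CommRing R] (P : Data R) (S : Sq P) (κ : ℝ) (r : ℕ), 0 < κ → ∃ c : ℝ, 0 < c ∧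
    ∀ᶠ l in atTop, ∀ (z : (v : P.Ω) → E (P.e v)) (a : R), ∃ B : Finset R, B.Nonempty ∧
      c * S.n l ≤ B.card ∧
      ∀ x ∈ B, (∀ v, ‖S.X l x v - z v‖ ≤ κ) ∧ ∀ t, P.NearT t (S.j l t - r) x a

/-- MOVE: change of the potential under a translation -/
def Stmt_MOVE : Prop :=
  ∀ (R : Type) [CommRing R] (P : Data R) (S : Sq P) (f φ : (v : P.Ω) → E (P.e v) → ℝ),
    (∀ v, LimV S v (f v) (φ v)) → ∀ W ε : ℝ, 0 < ε → ∃ (κ : ℝ) (r : ℕ), 0 < κ ∧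
    ∀ᶠ l in 𝒰, ∀ (x ω : R) (w : (v : P.Ω) → E (P.e v)), S.ex l x ≤ W → (∀ v, ‖w v‖ ≤ W) →
      (∀ v, ‖S.X l ω v - w v‖ ≤ κ) → (∀ t, P.NearT t (S.j l t - r) ω 0) →
      |S.Ph l (x + ω) - S.Ph l x - ∑ v, (φ v (S.X l x v + w v) - φ v (S.X l x v))| ≤ ε

/-- XC: almost minimal points of the potential of the finite places -/
def Stmt_XC : Prop :=
  ∀ (R : Type) [CommRing R] (P : Data R) (S : Sq P), ∃ W : ℝ, ∀ ε : ℝ, 0 < ε → ∀ᶠ l in atTop,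
    BddBelow (Set.range (S.pT l)) ∧ ∃ b : R, S.ex l b ≤ W ∧ S.pT l b ≤ (⨅ x, S.pT l x) + ε

/-- HRAD: the extremal radius at `v₁` -/
def Stmt_HRAD : Prop :=
  ∀ (R : Type) [CommRing R] (P : Data R) (S : Sq P) (lam : ℕ → ℝ), IsSub S lam →
    ∀ (f φ : (v : P.Ω) → E (P.e v) → ℝ) (z₀ : (v : P.Ω) → E (P.e v)),
    (∀ v, LimV S v (f v) (φ v)) → (∀ v, Rad (f v) (φ v) (z₀ v)) → ∀ v₁ : P.Ω,
    ∃ H : ℝ, 0 < H ∧ ∀ u : E (P.e v₁), ‖u‖ = 1 →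
      Tendsto (fun l => lam l - ⨅ x, S.pT l x) 𝒰
        (𝓝 (φ v₁ (z₀ v₁ + H • u) + ∑ v ∈ Finset.univ.erase v₁, φ v (z₀ v)))

/-- REP: representatives in `A l` of points slightly outside of `A l` -/
def Stmt_REP : Prop :=
  ∀ (R : Type) [CommRing R] (P : Data R) (S : Sq P) (lam : ℕ → ℝ), IsSub S lam →
    ∀ W : ℝ, ∃ c₁ C₂ : ℝ, 0 < c₁ ∧ ∀ (κ : ℝ) (r : ℕ), 0 < κ → κ ≤ 1 → ∀ᶠ l in atTop,
    ∀ (z : (v : P.Ω) → E (P.e v)) (b : R), (∀ v, ‖z v‖ ≤ W) → S.ex l b ≤ W →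
      (∀ x : R, (∀ v, ‖S.X l x v - z v‖ ≤ κ) → (∀ t, P.NearT t (S.j l t - r) x b) →
        lam l < S.Ph l x) →
      ∃ y a : R, (∀ v, ‖S.X l y v - z v‖ ≤ κ) ∧ (∀ t, P.NearT t (S.j l t - r) y b) ∧
        a ∈ S.A l ∧ y ≠ a ∧ y - a ∈ S.L l ∧ S.ex l a ≤ C₂ ∧ S.Ph l a ≤ lam l ∧
        ∀ v, c₁ ≤ ‖S.X l (y - a) v‖

/-- LATB: few elements of `L l` in bounded boxes -/
def Stmt_LATB : Prop :=
  ∀ (R : Type) [CommRing R] (P : Data R) (S : Sq P) (W : ℝ), ∃ N₀ : ℕ, ∀ᶠ l in atTop,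
    ∀ F : Finset R, (∀ μ ∈ F, μ ∈ S.L l ∧ S.ex l μ ≤ W) → F.card ≤ N₀

/-- HOLD: if there are two real places, the density at one of them has the modulus `Hold` -/
def Stmt_HOLD : Prop :=
  ∀ (R : Type) [CommRing R] (P : Data R) (S : Sq P)
    (f φ : (v : P.Ω) → E (P.e v) → ℝ) (z₀ : (v : P.Ω) → E (P.e v)),
    (∀ v, LimV S v (f v) (φ v)) → (∀ v, Rad (f v) (φ v) (z₀ v)) →
    ∀ v₁ v₂ : P.Ω, v₁ ≠ v₂ → P.e v₁ = 1 → P.e v₂ = 1 → Hold (f v₂) (z₀ v₂)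

/-- FIN2: two infinite places -/
def Stmt_FIN2 : Prop :=
  ∀ (R : Type) [CommRing R] (P : Data R) (S : Sq P)
    (f φ : (v : P.Ω) → E (P.e v) → ℝ) (z₀ : (v : P.Ω) → E (P.e v)),
    (∀ v, LimV S v (f v) (φ v)) → (∀ v, Rad (f v) (φ v) (z₀ v)) →
    ∀ v₁ v₂ : P.Ω, v₁ ≠ v₂ → ¬ Flat (φ v₂) (z₀ v₂)

/-- FIN1: one complex place -/
def Stmt_FIN1 : Prop :=
  ∀ (R : Type) [CommRing R] (P : Data R) (S : Sq P)
    (f φ : (v : P.Ω) → E (P.e v) → ℝ) (z₀ : (v : P.Ω) → E (P.e v)),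
    (∀ v, LimV S v (f v) (φ v)) → (∀ v, Rad (f v) (φ v) (z₀ v)) →
    ∀ v₁ : P.Ω, (∀ v, v = v₁) → P.e v₁ ≠ 2

/-- MAINA: the analytic theorem -/
def Stmt_MAINA : Prop :=
  ∀ (R : Type) [CommRing R] (P : Data R) (C₁ : ℝ), P.Good C₁ → 2 ≤ ∑ v, P.e v →
    ∃ n₀ : ℕ, ∀ (A : Finset R) (L : AddSubgroup R), P.Opt C₁ A L → A.card < n₀

end Pool.NS
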