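import Pool.Agent.Work.MP_b29d7f_ns.Interface2
import Pool.Agent.Work.MP_b29d7f_nt.Ded.Main

/-!
# Interface, third part: arithmetic (Mertens' theorem for number fields, `S`-integers)
-/

set_option autoImplicit false

open Finset Filter Topology MeasureTheory NumberField IsDedekindDomain

namespace Pool.NS

open Pool.Agent.Work.MP_b29d7f_nt.Ded

/-! ## Part G: the von Mangoldt function of a Dedekind domain -/

section

variable (R : Type) [CommRing R] [Ring.HasFiniteQuotients R]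

open scoped Classical in
/-- the nonzero ideals of norm at most `X` -/
noncomputable def ids (X : ℕ) : Finset (Ideal R) :=
  (Ring.HasFiniteQuotients.finite_cardQuot_le (R := R) X).toFinset.filter fun I => I ≠ ⊥

variable {R}

lemma mem_ids {X : ℕ} {I : Ideal R} : I ∈ ids R X ↔ I ≠ ⊥ ∧ Nm I ≤ X := by
  classical
  unfold ids Nm
  rw [Finset.mem_filter, Set.Finite.mem_toFinset, Set.mem_setOf_eq, Submodule.cardQuot_apply]
  exact and_comm

omit [Ring.HasFiniteQuotients R] in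
open scoped Classical in
/-- von Mangoldt function: `log |R/p|` for `I = p ^ i`, `i ≥ 1` and `0` for the other ideals -/
noncomputable def Lam (I : Ideal R) : ℝ :=
  if h : ∃ p : Ideal R, p.IsPrime ∧ p ≠ ⊥ ∧ ∃ i : ℕ, 1 ≤ i ∧ I = p ^ i then
    Real.log (Nm h.choose) else 0

variable (R)

/-- the theorems of Chebyshev and Mertens for `R` -/
structure Mert (C₂ : ℝ) : Prop where
  psi : ∀ X : ℕ, ∑ I ∈ ids R X, Lam I ≤ C₂ * X
  mer : ∀ X : ℕ, 1 ≤ X → |∑ I ∈ ids R X, Lam I / (Nm I : ℝ) - Real.log X| ≤ C₂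

end

open scoped Classical in
/-- FACT: `∑_{I ∣ x} Λ(I) = log N(x)` -/
def Stmt_FACT : Prop :=
  ∀ (R : Type) [CommRing R] [IsDedekindDomain R] [Ring.HasFiniteQuotients R] [Infinite R],
    (∀ I : Ideal R, 0 ≤ Lam I) ∧
    (∀ p : Ideal R, p.IsPrime → p ≠ ⊥ → ∀ i : ℕ, 1 ≤ i → Lam (p ^ i) = Real.log (Nm p)) ∧
    (∀ I : Ideal R, Lam I ≠ 0 → ∃ p : Ideal R, p.IsPrime ∧ p ≠ ⊥ ∧ ∃ i : ℕ, 1 ≤ i ∧ I = p ^ i) ∧
    ∀ (x : R) (X : ℕ), x ≠ 0 → nrm x ≤ X →
      Real.log (nrm x) = ∑ I ∈ (ids R X).filter (fun I => x ∈ I), Lam I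

open scoped Classical in
/-- LOW: lower bound for the energy of all finite sets -/
def Stmt_LOW : Prop :=
  ∀ (R : Type) [CommRing R] [IsDedekindDomain R] [Ring.HasFiniteQuotients R] [Infinite R]
    (C₂ : ℝ), Mert R C₂ → ∃ C₁ : ℝ, ∀ P : Data R, P.ln 0 = 0 →
    (∀ x, x ≠ 0 → P.ln x = Real.log (nrm x)) →
    ∀ B : Finset R, B.Nonempty → (B.card : ℝ) ^ 2 * (Real.log B.card - C₁) ≤ P.En B

/-- OPT: the first `|R/p|^l` elements of a simultaneous ordering are an optimal set -/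
def Stmt_OPT : Prop :=
  ∀ (R : Type) [CommRing R] [IsDedekindDomain R] [Ring.HasFiniteQuotients R] [Infinite R]
    (C₂ : ℝ), Mert R C₂ → ∃ C₀ : ℝ, ∀ P : Data R, P.ln 0 = 0 →
    (∀ x, x ≠ 0 → P.ln x = Real.log (nrm x)) →
    ∀ a : ℕ → R, (∀ p : Ideal R, p.IsPrime → p ≠ ⊥ → IsPOrdering Set.univ p a) →
    ∀ (C₁ : ℝ), C₀ ≤ C₁ → ∀ n₀ : ℕ, ∃ (A : Finset R) (L : AddSubgroup R), n₀ ≤ A.card ∧ P.Opt C₁ A L

/-! ## Part H: Mertens' theorem for number fields -/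

/-- CHK: Chebyshev's upper bound -/
def Stmt_CHK : Prop :=
  ∀ (K : Type) [Field K] [NumberField K], ∃ C : ℝ, ∀ X : ℕ, ∑ I ∈ ids (𝓞 K) X, Lam I ≤ C * X

/-- MK0: counting integers in a box -/
def Stmt_MK0 : Prop :=
  ∀ (K : Type) [Field K] [NumberField K], ∃ V C : ℝ, 0 < V ∧ 0 ≤ C ∧
    ∀ (r : ℝ) (ρ : InfinitePlace K → ℝ) (c : K), 1 ≤ r → (∀ w, r ≤ ρ w) →
      {x : 𝓞 K | ∀ w : InfinitePlace K, w ((x : K) - c) ≤ ρ w}.Finite ∧
      |(({x : 𝓞 K | ∀ w : InfinitePlace K, w ((x : K) - c) ≤ ρ w}.ncard : ℕ) : ℝ)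
        - V * ∏ w, ρ w ^ w.mult| ≤ C * (∏ w, ρ w ^ w.mult) / r

/-- MKC: upper bound for the number of integers in a box -/
def Stmt_MKC : Prop :=
  ∀ (K : Type) [Field K] [NumberField K], ∃ C : ℝ, 0 ≤ C ∧
    ∀ ρ : InfinitePlace K → ℝ, (∀ w, 0 < ρ w) →
      {x : 𝓞 K | ∀ w : InfinitePlace K, w (x : K) ≤ ρ w}.Finite ∧
      (({x : 𝓞 K | ∀ w : InfinitePlace K, w (x : K) ≤ ρ w}.ncard : ℕ) : ℝ)
        ≤ C * (1 + ∏ w, ρ w ^ w.mult)

/-- elements of an ideal in a box -/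
def bx {K : Type} [Field K] [NumberField K] (J : Ideal (𝓞 K)) (m : ℝ) : Set (𝓞 K) :=
  {x | x ∈ J ∧ ∀ w : InfinitePlace K, w (x : K) ≤ m}

/-- MK1: counting elements of an ideal in a box -/
def Stmt_MK1 : Prop :=
  ∀ (K : Type) [Field K] [NumberField K], ∃ V C : ℝ, 0 < V ∧ 0 ≤ C ∧
    ∀ J : Ideal (𝓞 K), J ≠ ⊥ → ∀ m : ℝ, 0 < m → (bx J m).Finite ∧
      |((bx J m).ncard : ℝ) - V * (m ^ Module.finrank ℚ K / Nm J)| ≤
        C * (1 + (m ^ Module.finrank ℚ K / Nm J) ^ (1 - 1 / (Module.finrank ℚ K : ℝ)))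

open scoped Classical in
/-- MK2: the logarithms of the norms of the elements of a box -/
def Stmt_MK2 : Prop :=
  ∀ (K : Type) [Field K] [NumberField K], ∃ C : ℝ, ∀ m : ℝ, 1 ≤ m → ∀ B : Finset (𝓞 K),
    (B : Set (𝓞 K)) = bx ⊤ m →
    |∑ x ∈ B.erase 0, Real.log (nrm x) - (B.card : ℝ) * Real.log (m ^ Module.finrank ℚ K)|
      ≤ C * m ^ Module.finrank ℚ K

/-- MK5: the sum of the error terms -/
def Stmt_MK5 : Prop :=
  ∀ (R : Type) [CommRing R] [IsDedekindDomain R] [Ring.HasFiniteQuotients R] [Infinite R]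
    (C : ℝ), (∀ X : ℕ, ∑ I ∈ ids R X, Lam I ≤ C * X) → ∀ d : ℕ, 1 ≤ d → ∃ C' : ℝ, ∀ X : ℕ,
    ∑ I ∈ ids R X, Lam I * ((X : ℝ) / Nm I) ^ (1 - 1 / (d : ℝ)) ≤ C' * X

/-- MERK: Mertens' theorem for rings of integers -/
def Stmt_MERK : Prop := ∀ (K : Type) [Field K] [NumberField K], ∃ C₂ : ℝ, Mert (𝓞 K) C₂

/-! ## Part I: `S`-integers -/

section

variable (K : Type) [Field K] [NumberField K]

/-- the prime ideals which contain `g` -/
abbrev TT (g : 𝓞 K) : Type := {t : HeightOneSpectrum (𝓞 K) // g ∈ t.asIdeal}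

lemma finite_TT {g : 𝓞 K} (hg : g ≠ 0) : Finite (TT K g) := by
  have h := Ideal.finite_factors (R := 𝓞 K) (I := Ideal.span {g})
    (by rwa [Ne, Ideal.zero_eq_bot, Ideal.span_singleton_eq_bot])
  apply Set.Finite.subset h
  intro t ht
  rw [Set.mem_setOf_eq, Ideal.dvd_span_singleton]
  exact ht

/-- the data of a ring `R` between `𝓞 K` and `K` in which the primes containing `g` are inverted -/
noncomputable def dat {g : 𝓞 K} (hg : g ≠ 0) (R : Type) [CommRing R] [Algebra R K] : Data R where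
  Ω := InfinitePlace K
  fΩ := inferInstance
  dΩ := Classical.decEq _
  T := TT K g
  fT := @Fintype.ofFinite _ (finite_TT K hg)
  dT := Classical.decEq _
  e := fun w => w.mult
  lq := fun t => Real.log (Nm t.1.asIdeal)
  em :=
    { toFun := fun x w => WithLp.toLp 2 fun i =>
        if (i : ℕ) = 0 then (w.embedding (algebraMap R K x)).re
        else (w.embedding (algebraMap R K x)).im
      map_zero' := by
        funext w; ext i; simp
      map_add' := by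
        intro x y; funext w; ext i
        simp only [map_add, Complex.add_re, Complex.add_im, Pi.add_apply, PiLp.add_apply]
        split_ifs <;> rfl }
  lev := fun t x => WithZero.log (t.1.valuation K (algebraMap R K x))

end

/-- `R` is the ring `𝓞 K [1/g]` -/
class IsSInt (K : Type) [Field K] [NumberField K] (g : 𝓞 K) (R : Type) [CommRing R]
    [Algebra (𝓞 K) R] [Algebra R K] : Prop where
  ne : g ≠ 0
  tower : IsScalarTower (𝓞 K) R K
  away : IsLocalization.Away g R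

/-- INST: instances -/
def Stmt_INST : Prop :=
  ∀ (K : Type) [Field K] [NumberField K] (g : 𝓞 K) (R : Type) [CommRing R] [Algebra (𝓞 K) R]
    [Algebra R K] [IsSInt K g R],
    IsDomain R ∧ IsFractionRing R K ∧ IsDedekindDomain R ∧ Ring.HasFiniteQuotients R ∧ Infinite R

/-- MERR: Mertens' theorem for `S`-integers -/
def Stmt_MERR : Prop :=
  ∀ (K : Type) [Field K] [NumberField K] (g : 𝓞 K) (R : Type) [CommRing R] [Algebra (𝓞 K) R]
    [Algebra R K] [IsSInt K g R] [Ring.HasFiniteQuotients R],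
    (∃ C : ℝ, Mert (𝓞 K) C) → ∃ C : ℝ, Mert R C

/-- GEO1: the simple geometric facts -/
def Stmt_GEO1 : Prop :=
  ∀ (K : Type) [Field K] [NumberField K] (g : 𝓞 K) (hg : g ≠ 0) (R : Type) [CommRing R]
    [Algebra (𝓞 K) R] [Algebra R K] [IsSInt K g R],
    (∑ v, (dat K hg R).e v = Module.finrank ℚ K) ∧ Nonempty (dat K hg R).Ω ∧
    (∀ v, (dat K hg R).e v = 1 ∨ (dat K hg R).e v = 2) ∧ (∀ t, 0 < (dat K hg R).lq t) ∧
    (∀ x : R, ∀ w : InfinitePlace K, ‖(dat K hg R).em x w‖ = w (algebraMap R K x)) ∧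
    (∀ x : R, x ≠ 0 → algebraMap R K x ≠ 0) ∧
    (∀ t, (dat K hg R).lev t 0 = 0) ∧ (∀ t x, (dat K hg R).lev t (-x) = (dat K hg R).lev t x) ∧
    (∀ t x y, x ≠ 0 → y ≠ 0 → x + y ≠ 0 →
      (dat K hg R).lev t (x + y) ≤ max ((dat K hg R).lev t x) ((dat K hg R).lev t y))

/-- GEO2: the product formula -/
def Stmt_GEO2 : Prop :=
  ∀ (K : Type) [Field K] [NumberField K] (g : 𝓞 K) (hg : g ≠ 0) (R : Type) [CommRing R]
    [Algebra (𝓞 K) R] [Algebra R K] [IsSInt K g R],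
    (dat K hg R).ln 0 = 0 ∧ ∀ x : R, x ≠ 0 → 0 < nrm x ∧ (dat K hg R).ln x = Real.log (nrm x)

/-- GEO3: large boxes contain elements -/
def Stmt_GEO3 : Prop :=
  ∀ (K : Type) [Field K] [NumberField K] (g : 𝓞 K) (hg : g ≠ 0) (R : Type) [CommRing R]
    [Algebra (𝓞 K) R] [Algebra R K] [IsSInt K g R], ∃ C₁ : ℝ,
    ∀ (ρ : (dat K hg R).Ω → ℝ) (m : (dat K hg R).T → ℤ), (∀ v, 0 < ρ v) →
      C₁ ≤ (dat K hg R).deg ρ m →
    ∀ (c : (v : (dat K hg R).Ω) → E ((dat K hg R).e v)) (a : R),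
      ∃ x : R, (∀ v, ‖(dat K hg R).em x v - c v‖ ≤ ρ v) ∧ ∀ t, (dat K hg R).NearT t (m t) x a

/-- MAIN: no simultaneous orderings -/
def Stmt_MAIN : Prop :=
  ∀ (K : Type) [Field K] [NumberField K] (g : 𝓞 K) (R : Type) [CommRing R]
    [Algebra (𝓞 K) R] [Algebra R K] [IsSInt K g R], 2 ≤ Module.finrank ℚ K →
    ¬ HasSimultaneousOrdering (Set.univ : Set R)

/-- SINT: rings of `S`-integers, `S` finite -/
def Stmt_SINT : Prop :=
  ∀ (K : Type) [Field K] [NumberField K] (S : Set (HeightOneSpectrum (𝓞 K))), S.Finite →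
    ∃ g : 𝓞 K, IsSInt K g (S.integer K)

/-- FINAL: no simultaneous orderings of dense subsets of cosets -/
def Stmt_FINAL : Prop :=
  ∀ (K : Type) [Field K] [NumberField K], 2 ≤ Module.finrank ℚ K →
    ∀ T : Set (HeightOneSpectrum (𝓞 K)), T.Finite →
    ∀ (S : Set (T.integer K)) (b : T.integer K) (I : Ideal (T.integer K)), I ≠ ⊥ →
      DenseInCoset S b I → ¬ HasSimultaneousOrdering S

/-- QORD: the field of rational numbers -/
def Stmt_QORD : Prop :=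
  ∀ (K : Type) [Field K] [NumberField K] (g : 𝓞 K) (R : Type) [CommRing R]
    [Algebra (𝓞 K) R] [Algebra R K] [IsSInt K g R], Module.finrank ℚ K = 1 →
    HasSimultaneousOrdering (Set.univ : Set R)

end Pool.NS
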