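import Pool.Agent.Work.MP_b29d7f_ns.Interface3

/-!
# Interface, fourth part: the final statements in all universes
-/

set_option autoImplicit false

open NumberField IsDedekindDomain

namespace Pool.NS

open Pool.Agent.Work.MP_b29d7f_nt.Ded

universe u

/-- RES1: subsets of `K` which are dense at almost all primes -/
def Stmt_RES1 : Prop :=
  ∀ (K : Type u) [Field K] [NumberField K], 2 ≤ Module.finrank ℚ K →
    ∀ E : Set (HeightOneSpectrum (𝓞 K)), E.Finite → ∀ S : Set K,
    (∀ v ∉ E, ∀ s ∈ S, v.valuation K s ≤ 1) →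
    (∀ v ∉ E, ∀ (x : 𝓞 K) (n : ℕ), ∃ s ∈ S,
      v.valuation K (s - algebraMap (𝓞 K) K x) ≤ WithZero.exp (-(n : ℤ))) →
    ¬ ∃ a : ℕ → K, (∀ k, a k ∈ S) ∧ ∀ v ∉ E, ∀ k, ∀ s ∈ S,
      v.valuation K (∏ i ∈ Finset.range k, (s - a i))
        ≤ v.valuation K (∏ i ∈ Finset.range k, (a k - a i))

/-- RES2: the rings of `S`-integers with simultaneous orderings -/
def Stmt_RES2 : Prop :=
  ∀ (K : Type u) [Field K] [NumberField K] (T : Set (HeightOneSpectrum (𝓞 K))), T.Finite →
    (HasSimultaneousOrdering (Set.univ : Set (T.integer K)) ↔ Module.finrank ℚ K = 1)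

/-- RES3: dense subsets of cosets -/
def Stmt_RES3 : Prop :=
  ∀ (K : Type u) [Field K] [NumberField K], 2 ≤ Module.finrank ℚ K →
    ∀ T : Set (HeightOneSpectrum (𝓞 K)), T.Finite →
    ∀ (S : Set (T.integer K)) (b : T.integer K) (I : Ideal (T.integer K)), I ≠ ⊥ →
      DenseInCoset S b I → ¬ HasSimultaneousOrdering S

end Pool.NS
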